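import Pool.Agent.H85.CNT.Thm

/-!
# The counting theorem
-/

set_option autoImplicit false
set_option linter.unusedSectionVars false

namespace Pool.CNT

open Finset MvPolynomial MeasureTheory
open Pool.Agent.H50.PW

variable {m : ℕ}

theorem wz_le (s : Fin (m + 1) → ℝ) {h : ℝ} (hh : 0 < h) (hs : ∀ i, |s i| ≤ 2)
    (hsep : ∀ i j, i ≠ j → h ≤ |s i - s j|) (i : Fin (m + 1)) : wz s i ≤ 2 ^ m * (1 / h) ^ m := by
  rw [wz, Finset.abs_prod]
  have h1 : ∀ j ∈ Finset.univ.erase i, |s j / (s i - s j)| ≤ 2 * (1 / h) := by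
    intro j hj
    rw [abs_div]
    have h2 := hsep i j (Finset.ne_of_mem_erase hj).symm
    rw [mul_one_div]
    exact div_le_div₀ (by norm_num) (hs j) hh h2
  have h3 := Finset.prod_le_prod (fun j _ => abs_nonneg (s j / (s i - s j))) h1
  refine h3.trans (le_of_eq ?_)
  rw [Finset.prod_const, Finset.card_erase_of_mem (Finset.mem_univ i), Finset.card_univ,
    Fintype.card_fin, Nat.add_sub_cancel, mul_pow]

/-- The boxes. -/
def ST (k : ℕ) (T : Fin m → Bool) : Set (Fin m → ℝ) :=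
  Set.Icc (fun i => -cond (T i) (2 * 2 ^ k) ((m : ℝ) + 2)) fun i =>
    cond (T i) (2 * 2 ^ k) ((m : ℝ) + 2)

theorem vol_ST (k : ℕ) (T : Fin m → Bool) (hT : T ≠ fun _ => true) :
    volume (ST k T) ≤ ENNReal.ofReal ((4 * (2 * m + 4)) ^ m * 2 ^ (k * (m - 1))) := by
  classical
  rw [ST, Real.volume_Icc_pi]
  obtain ⟨i₀, hi₀⟩ : ∃ i₀, T i₀ = false := by
    by_contra h
    push Not at h
    refine hT (funext fun i => ?_)
    cases hi : T i
    · exact absurd hi (h i)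
    · rfl
  have h1 : ∀ i : Fin m, ENNReal.ofReal (cond (T i) (2 * 2 ^ k) ((m : ℝ) + 2) -
      -cond (T i) (2 * 2 ^ k) ((m : ℝ) + 2)) ≤
      ENNReal.ofReal ((4 * (2 * m + 4)) * cond (T i) (2 ^ k) 1) := by
    intro i
    refine ENNReal.ofReal_le_ofReal ?_
    have hm : (0 : ℝ) ≤ m := Nat.cast_nonneg m
    have h2 : (0 : ℝ) < 2 ^ k := by positivity
    cases T i
    · simp only [cond_false]
      nlinarith
    · simp only [cond_true]
      nlinarith
  refine (Finset.prod_le_prod' fun i _ => h1 i).trans ?_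
  rw [← ENNReal.ofReal_prod_of_nonneg (fun i _ => by
    cases T i
    · simp only [cond_false]; positivity
    · simp only [cond_true]; positivity)]
  refine ENNReal.ofReal_le_ofReal ?_
  rw [Finset.prod_mul_distrib, Finset.prod_const, Finset.card_univ, Fintype.card_fin]
  refine mul_le_mul_of_nonneg_left ?_ (by positivity)
  have h3 : ∏ i, cond (T i) ((2 : ℝ) ^ k) 1 = ∏ i ∈ Finset.univ.erase i₀, cond (T i) ((2 : ℝ) ^ k) 1 := by
    rw [← Finset.mul_prod_erase _ _ (Finset.mem_univ i₀), hi₀, cond_false, one_mul]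
  rw [h3]
  calc ∏ i ∈ Finset.univ.erase i₀, cond (T i) ((2 : ℝ) ^ k) 1 ≤
        ∏ _i ∈ Finset.univ.erase i₀, (2 : ℝ) ^ k := by
        refine Finset.prod_le_prod (fun i _ => ?_) fun i _ => ?_
        · cases T i
          · simp only [cond_false]; norm_num
          · simp only [cond_true]; positivity
        · cases T i
          · simp only [cond_false]
            exact one_le_pow₀ (by norm_num)
          · exact le_refl _
    _ = 2 ^ (k * (m - 1)) := by
        rw [Finset.prod_const, Finset.card_erase_of_mem (Finset.mem_univ i₀), Finset.card_univ,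
          Fintype.card_fin, ← pow_mul]

/-- The sets of positions. -/
def SF (F : Fin m → MvPolynomial (Fin m) ℝ) (ρ : ℝ) : Set (Fin m → ℝ) :=
  {x | (∀ i, |eval x (F i)| ≤ 2) ∧ 1 / (2 * ρ) ≤ |(jac F x).det|}

theorem meas_SF (F : Fin m → MvPolynomial (Fin m) ℝ) (ρ : ℝ) : MeasurableSet (SF F ρ) := by
  have h1 : MeasurableSet {x : Fin m → ℝ | ∀ i, |eval x (F i)| ≤ 2} := by
    rw [Set.ofPred_forall]
    refine MeasurableSet.iInter fun k => ?_
    exact measurableSet_le (continuous_eval' _).abs.measurable measurable_const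
  have h2 : MeasurableSet {x : Fin m → ℝ | 1 / (2 * ρ) ≤ |(jac F x).det|} :=
    measurableSet_le measurable_const (continuous_jac_det F).abs.measurable
  exact h1.inter h2

theorem vol_SF {d : ℕ} (F : Fin m → MvPolynomial (Fin m) ℝ) (hF : ∀ i, (F i).totalDegree ≤ d)
    {ρ : ℝ} (hρ : 0 < ρ) :
    volume (SF F ρ) ≤ ENNReal.ofReal (2 * ρ * ((d + 1) ^ m * 4 ^ m)) := by
  have h1 := volume_implicit_le F hF (fun _ => 2) (1 / (2 * ρ))
  have h2 : ∏ _k : Fin m, ENNReal.ofReal (2 * 2) = ENNReal.ofReal (4 ^ m) := by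
    rw [Finset.prod_const, Finset.card_univ, Fintype.card_fin, ENNReal.ofReal_pow (by norm_num)]
    norm_num
  rw [h2, Fintype.card_fin] at h1
  have h3 : ENNReal.ofReal (2 * ρ) * (ENNReal.ofReal (1 / (2 * ρ)) * volume (SF F ρ)) ≤
      ENNReal.ofReal (2 * ρ) * (((d + 1) ^ m : ℕ) * ENNReal.ofReal (4 ^ m)) :=
    mul_le_mul_right h1 _
  have h4 : ENNReal.ofReal (2 * ρ) * ENNReal.ofReal (1 / (2 * ρ)) = 1 := by
    rw [← ENNReal.ofReal_mul (by positivity), mul_one_div_cancel (by positivity),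
      ENNReal.ofReal_one]
  rw [← mul_assoc, h4, one_mul] at h3
  refine h3.trans (le_of_eq ?_)
  rw [ENNReal.ofReal_mul (p := 2 * ρ) (by positivity),
    ENNReal.ofReal_mul (p := ((d : ℝ) + 1) ^ m) (by positivity), ← ENNReal.ofReal_natCast]
  push_cast
  rfl

/-- **The counting theorem.** -/
theorem cntP (m d : ℕ) : CntP m d := by
  classical
  obtain ⟨n, hn⟩ : ∃ n : ℕ, n = Fintype.card ((Fin m ⊕ Fin m) ⊕ (Fin m ⊕ Ax m)) := ⟨_, rfl⟩
  obtain ⟨D, hD⟩ : ∃ D : ℕ, D = 2 * (m * d + d + 1) := ⟨_, rfl⟩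
  obtain ⟨N₁, hN₁⟩ : ∃ N₁ : ℕ, N₁ = (D + 2 + 1) ^ n := ⟨_, rfl⟩
  obtain ⟨N₀, hN₀⟩ : ∃ N₀ : ℕ, N₀ = (2 * m + 7) ^ m := ⟨_, rfl⟩
  obtain ⟨c₁, hc₁⟩ : ∃ c₁ : ℝ, c₁ = 2 ^ m * (2 ^ n * (N₁ * (4 * (2 * m + 4)) ^ m)) := ⟨_, rfl⟩
  obtain ⟨c₂, hc₂⟩ : ∃ c₂ : ℝ, c₂ = (m + 1) * (2 ^ n * (2 * 2 ^ m) *
    (N₁ * (2 * ((d + 1) ^ m * 4 ^ m)))) := ⟨_, rfl⟩
  have hc₁0 : 0 ≤ c₁ := by rw [hc₁]; positivity
  have hc₂0 : 0 ≤ c₂ := by rw [hc₂]; positivity
  refine ⟨N₀ * (c₁ + c₂) + 1, ?_, ?_⟩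
  · have : 0 ≤ (N₀ : ℝ) * (c₁ + c₂) := by positivity
    linarith
  intro k G F s h j₀ ρ Y hG hF hh hj hρ hs hsep hY
  have hinj : Function.Injective s := by
    intro i j hij
    by_contra hne
    have h1 := hsep i j hne
    rw [hij, sub_self, abs_zero] at h1
    linarith
  obtain ⟨R, hR⟩ : ∃ R : ℝ, R = 1 + ∑ y ∈ Y, (‖y.1‖ + ‖y.2‖) := ⟨_, rfl⟩
  have hR1 : ∀ y ∈ Y, ‖y.1‖ + ‖y.2‖ < R := by
    intro y hy
    have := Finset.single_le_sum (f := fun y : (Fin m → ℝ) × (Fin m → ℝ) => ‖y.1‖ + ‖y.2‖)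
      (fun y _ => add_nonneg (norm_nonneg _) (norm_nonneg _)) hy
    rw [hR]
    linarith [this]
  have hR0 : 0 ≤ R := by
    rw [hR]
    have := Finset.sum_nonneg fun (y : (Fin m → ℝ) × (Fin m → ℝ)) (_ : y ∈ Y) =>
      add_nonneg (norm_nonneg y.1) (norm_nonneg y.2)
    linarith
  obtain ⟨q, hq⟩ : ∃ q : Ax m → MvPolynomial (Fin m ⊕ Fin m) ℝ, q = qs G F s j₀ ρ R := ⟨_, rfl⟩
  have hneg : ∀ u : Fin m ⊕ Fin m → ℝ, (∀ a, eval u (q a) < 0) →
      (∀ j i, |eval ((u ∘ Sum.inl) + s j • (u ∘ Sum.inr)) (F j i)| ≤ 2) ∧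
      (∀ j, 1 / (2 * ρ) ≤ |(jac (F j) ((u ∘ Sum.inl) + s j • (u ∘ Sum.inr))).det|) ∧
      (∀ i, |eval (u ∘ Sum.inl) (G i)| ≤ 2) ∧ |(jac G (u ∘ Sum.inl)).det| ≤ 2 * j₀ ∧
      ∀ c, |u c| ≤ R := by
    intro u hu
    rw [hq] at hu
    exact qs_neg hj hρ hR0 hu
  obtain ⟨S, hSe⟩ : ∃ S : (Fin m → Bool) ⊕ Fin (m + 1) → Set (Fin m → ℝ),
      S = Sum.elim (fun T => ST k T) fun j => SF (F j) ρ := ⟨_, rfl⟩
  obtain ⟨hc, hhc⟩ : ∃ hc : (Fin m → Bool) ⊕ Fin (m + 1) → Fin m →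
      MvPolynomial ((Fin m ⊕ Fin m) ⊕ (Fin m ⊕ Ax m)) ℝ,
      hc = Sum.elim (fun T => hT k G T) (fun j => hS (s j)) := ⟨_, rfl⟩
  obtain ⟨wt, hwt⟩ : ∃ wt : (Fin m → Bool) ⊕ Fin (m + 1) → ℝ,
      wt = Sum.elim (fun T : Fin m → Bool => if T = (fun _ => true) then 0 else (2 : ℝ) ^ n)
        (fun j => (2 : ℝ) ^ n * (2 ^ (k * m) * (2 * j₀) * wz s j)) := ⟨_, rfl⟩
  have key := count_le (gs k G) q (Y.image fun y i => ⌊2 ^ k * eval y.1 (G i)⌋) (by
      intro α hα
      obtain ⟨y, hy, rfl⟩ := Finset.mem_image.1 hα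
      obtain ⟨h1, h2, h3, h4⟩ := hY y hy
      refine ⟨Sum.elim y.1 y.2, ?_, ?_⟩
      · rw [hq]
        refine qs_of hj hρ h1 h2 h3 h4 ?_ ?_
        · intro i
          have h5 := norm_le_pi_norm y.1 i
          rw [Real.norm_eq_abs] at h5
          linarith [hR1 y hy, norm_nonneg y.2]
        · intro i
          have h5 := norm_le_pi_norm y.2 i
          rw [Real.norm_eq_abs] at h5
          linarith [hR1 y hy, norm_nonneg y.1]
      · intro i
        have h5 : eval (Sum.elim y.1 y.2) (gs k G i) = 2 ^ k * eval y.1 (G i) := by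
          rw [gs, map_mul, eval_C, eval_rename]
          rfl
        rw [h5]
        exact ⟨Int.floor_le _, (Int.lt_floor_add_one _).le⟩)
    (R := R) (fun u hu b => (hneg u hu).2.2.2.2 b) hR0 hc wt (by
      rintro (T | j)
      · rw [hwt]
        simp only [Sum.elim_inl]
        split_ifs
        · exact le_refl _
        · positivity
      · rw [hwt]
        simp only [Sum.elim_inr]
        have := wz_nonneg s j
        positivity) S (by
      rintro (T | j)
      · rw [hSe]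
        exact measurableSet_Icc
      · rw [hSe]
        exact meas_SF _ _) (by
      rintro (T | j) v hv hv2
      · rw [hSe, hhc]
        have h1 := (hneg _ hv).2.2.1
        rw [Sum.elim_inl, Sum.elim_inl, ST, Set.mem_Icc, Pi.le_def, Pi.le_def]
        have h2 : ∀ i, |eval v (hT k G T i)| ≤ cond (T i) (2 * 2 ^ k) ((m : ℝ) + 2) := by
          intro i
          rw [hT]
          cases T i
          · simp only [cond_false, map_neg, eval_X, abs_neg]
            exact hv2 i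
          · simp only [cond_true]
            rw [gs, map_mul, rename_C, rename_rename, map_mul, eval_C, eval_rename, abs_mul,
              abs_of_nonneg (by positivity : (0 : ℝ) ≤ 2 ^ k), mul_comm]
            exact mul_le_mul_of_nonneg_right (h1 i) (by positivity)
        exact ⟨fun i => (abs_le.1 (h2 i)).1, fun i => (abs_le.1 (h2 i)).2⟩
      · rw [hSe, hhc]
        have h1 := hneg _ hv
        have h2 : (fun i => eval v ((Sum.elim (fun T => hT k G T) (fun j => hS (s j)) :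
            (Fin m → Bool) ⊕ Fin (m + 1) → Fin m →
              MvPolynomial ((Fin m ⊕ Fin m) ⊕ (Fin m ⊕ Ax m)) ℝ) (Sum.inr j) i)) =
            ((v ∘ Sum.inl) ∘ Sum.inl) + s j • ((v ∘ Sum.inl) ∘ Sum.inr) := by
          funext i
          simp [hS]
        rw [h2]
        exact ⟨h1.1 j, h1.2.1 j⟩)
    (d := D + 2) (by
      intro δ b i
      refine deg_Phi (D := D) ?_ ?_ ?_ i
      · intro i
        rw [gs]
        refine (totalDegree_mul _ _).trans ?_
        rw [totalDegree_C, zero_add]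
        refine (totalDegree_rename_le _ _).trans ((hG i).trans ?_)
        rw [hD]
        omega
      · intro a
        rw [hq, hD]
        exact deg_qs hG hF a
      · intro i
        rcases b with T | j
        · rw [hhc]
          simp only [Sum.elim_inl, hT]
          cases T i
          · simp only [cond_false, totalDegree_neg, totalDegree_X]
            omega
          · simp only [cond_true]
            refine (totalDegree_rename_le _ _).trans ?_
            rw [gs]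
            refine (totalDegree_mul _ _).trans ?_
            rw [totalDegree_C, zero_add]
            refine (totalDegree_rename_le _ _).trans ((hG i).trans ?_)
            rw [hD]
            omega
        · rw [hhc]
          simp only [Sum.elim_inr, hS]
          refine (totalDegree_add _ _).trans (max_le ?_ ?_)
          · rw [totalDegree_X]
            omega
          · refine (totalDegree_mul _ _).trans ?_
            rw [totalDegree_C, totalDegree_X]
            omega) (by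
      intro δ v hv
      rw [hhc, hwt, hn]
      exact det_psi k G q s hinj δ v (hneg _ hv).2.2.2.1)
  -- the terms
  obtain ⟨X₁, hX₁⟩ : ∃ X₁ : ℝ, X₁ = 2 ^ n * (N₁ * ((4 * (2 * m + 4)) ^ m * 2 ^ (k * (m - 1)))) :=
    ⟨_, rfl⟩
  obtain ⟨X₂, hX₂⟩ : ∃ X₂ : ℝ, X₂ = 2 ^ n * (2 ^ (k * m) * (2 * j₀) * (2 ^ m * (1 / h) ^ m)) *
    (N₁ * (2 * ρ * ((d + 1) ^ m * 4 ^ m))) := ⟨_, rfl⟩
  have hX₁0 : 0 ≤ X₁ := by rw [hX₁]; positivity
  have hX₂0 : 0 ≤ X₂ := by rw [hX₂]; positivity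
  have hterm : ∀ b, ENNReal.ofReal (wt b) * ((((D + 2) + 1) ^
      Fintype.card ((Fin m ⊕ Fin m) ⊕ (Fin m ⊕ Ax m)) : ℕ) * volume (S b)) ≤
      ENNReal.ofReal (Sum.elim (fun _ : Fin m → Bool => X₁) (fun _ : Fin (m + 1) => X₂) b) := by
    intro b
    rw [← hn, ← hN₁, ← ENNReal.ofReal_natCast]
    rcases b with T | j
    · rw [hwt, hSe]
      simp only [Sum.elim_inl]
      by_cases hT' : T = fun _ => true
      · rw [if_pos hT', ENNReal.ofReal_zero, zero_mul]
        exact bot_le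
      · rw [if_neg hT']
        have h1 := vol_ST k T hT'
        refine (mul_le_mul_right (mul_le_mul_right h1 _) _).trans (le_of_eq ?_)
        rw [← ENNReal.ofReal_mul (by positivity), ← ENNReal.ofReal_mul (by positivity), hX₁]
    · rw [hwt, hSe]
      simp only [Sum.elim_inr]
      have h1 := vol_SF (F j) (hF j) hρ
      have h2 : (2 : ℝ) ^ n * (2 ^ (k * m) * (2 * j₀) * wz s j) ≤
          2 ^ n * (2 ^ (k * m) * (2 * j₀) * (2 ^ m * (1 / h) ^ m)) :=
        mul_le_mul_of_nonneg_left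
          (mul_le_mul_of_nonneg_left (wz_le s hh hs hsep j) (by positivity)) (by positivity)
      refine (mul_le_mul' (ENNReal.ofReal_le_ofReal h2) (mul_le_mul_right h1 _)).trans
        (le_of_eq ?_)
      rw [← ENNReal.ofReal_mul (by positivity), ← ENNReal.ofReal_mul (by positivity), hX₂]
  have hsum : ∑ b, Sum.elim (fun _ : Fin m → Bool => X₁) (fun _ : Fin (m + 1) => X₂) b =
      2 ^ m * X₁ + (m + 1) * X₂ := by
    rw [Fintype.sum_sum_type]
    simp only [Sum.elim_inl, Sum.elim_inr, Finset.sum_const, Finset.card_univ, nsmul_eq_mul,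
      Fintype.card_fin, Fintype.card_fun, Fintype.card_bool]
    push_cast
    ring
  have h1 := key.trans (mul_le_mul_right (Finset.sum_le_sum fun b _ => hterm b) _)
  rw [← ENNReal.ofReal_sum_of_nonneg (by
    rintro (T | j) _
    · exact hX₁0
    · exact hX₂0), hsum, ← hN₀, ← ENNReal.ofReal_natCast, ← ENNReal.ofReal_natCast,
    ← ENNReal.ofReal_mul (by positivity), ENNReal.ofReal_le_ofReal_iff (by positivity)] at h1
  refine h1.trans ?_
  have h2 : (0 : ℝ) ≤ 2 ^ (k * m) * j₀ * ρ * (1 / h) ^ m := by positivity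
  have h3 : (0 : ℝ) ≤ 2 ^ (k * (m - 1)) := by positivity
  have h4 : 2 ^ m * X₁ + (m + 1) * X₂ = c₁ * 2 ^ (k * (m - 1)) +
      c₂ * (2 ^ (k * m) * j₀ * ρ * (1 / h) ^ m) := by
    rw [hX₁, hX₂, hc₁, hc₂]
    ring
  rw [h4]
  have h5 : c₁ * 2 ^ (k * (m - 1)) + c₂ * (2 ^ (k * m) * j₀ * ρ * (1 / h) ^ m) ≤
      (c₁ + c₂) * (2 ^ (k * m) * j₀ * ρ * (1 / h) ^ m + 2 ^ (k * (m - 1))) := by
    nlinarith [mul_nonneg hc₁0 h2, mul_nonneg hc₂0 h3]
  calc (N₀ : ℝ) * (c₁ * 2 ^ (k * (m - 1)) + c₂ * (2 ^ (k * m) * j₀ * ρ * (1 / h) ^ m)) ≤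
      N₀ * ((c₁ + c₂) * (2 ^ (k * m) * j₀ * ρ * (1 / h) ^ m + 2 ^ (k * (m - 1)))) :=
        mul_le_mul_of_nonneg_left h5 (Nat.cast_nonneg _)
    _ ≤ (N₀ * (c₁ + c₂) + 1) * (2 ^ (k * m) * j₀ * ρ * (1 / h) ^ m + 2 ^ (k * (m - 1))) := by
        nlinarith

end Pool.CNT
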