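import Pool.Agent.H85.CNT.Min

/-!
# Counting the cubes met by a polynomial image
-/

set_option autoImplicit false
set_option linter.unusedSectionVars false

namespace Pool.CNT

open Finset MvPolynomial Topology MeasureTheory
open Pool.Agent.H50.PW (pmap jac djac djac_det hasStrictFDerivAt_pmap continuous_pmap
  continuous_jac_det lintegral_det_le volume_sum_pi_le)

variable {κ A : Type} [Fintype κ] [DecidableEq κ] [Fintype A] [DecidableEq A] {m : ℕ}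

/-- The polynomial map with given middle coordinates. -/
noncomputable def Phi (g : Fin m → MvPolynomial κ ℝ) (q : A → MvPolynomial κ ℝ) (δ : ℝ)
    (h : Fin m → MvPolynomial (κ ⊕ (Fin m ⊕ A)) ℝ) :
    κ ⊕ (Fin m ⊕ A) → MvPolynomial (κ ⊕ (Fin m ⊕ A)) ℝ :=
  Sum.elim (fun b => -∑ i, X (Sum.inr (Sum.inl i)) * rename Sum.inl (pderiv b (g i)) -
      MvPolynomial.C δ * ∑ a, X (Sum.inr (Sum.inr a)) ^ 2 * rename Sum.inl (pderiv b (q a)))
    (Sum.elim h fun a => X (Sum.inr (Sum.inr a)) * rename Sum.inl (q a))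

/-- The middle coordinates of the main map. -/
noncomputable def psi (g : Fin m → MvPolynomial κ ℝ) (i : Fin m) :
    MvPolynomial (κ ⊕ (Fin m ⊕ A)) ℝ :=
  rename Sum.inl (g i) + -X (Sum.inr (Sum.inl i))

theorem pmap_inl (g : Fin m → MvPolynomial κ ℝ) (q : A → MvPolynomial κ ℝ) (δ : ℝ)
    (h : Fin m → MvPolynomial (κ ⊕ (Fin m ⊕ A)) ℝ) (v : κ ⊕ (Fin m ⊕ A) → ℝ) (b : κ) :
    pmap (Phi g q δ h) v (Sum.inl b) =
      -∑ i, v (Sum.inr (Sum.inl i)) * eval (v ∘ Sum.inl) (pderiv b (g i)) -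
        δ * ∑ a, v (Sum.inr (Sum.inr a)) ^ 2 * eval (v ∘ Sum.inl) (pderiv b (q a)) := by
  simp only [pmap, Phi, Sum.elim_inl, map_sub, map_neg, map_sum, map_mul, map_pow, eval_X, eval_C,
    eval_rename]

theorem pmap_mid (g : Fin m → MvPolynomial κ ℝ) (q : A → MvPolynomial κ ℝ) (δ : ℝ)
    (h : Fin m → MvPolynomial (κ ⊕ (Fin m ⊕ A)) ℝ) (v : κ ⊕ (Fin m ⊕ A) → ℝ) (i : Fin m) :
    pmap (Phi g q δ h) v (Sum.inr (Sum.inl i)) = eval v (h i) := rfl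

theorem pmap_inr (g : Fin m → MvPolynomial κ ℝ) (q : A → MvPolynomial κ ℝ) (δ : ℝ)
    (h : Fin m → MvPolynomial (κ ⊕ (Fin m ⊕ A)) ℝ) (v : κ ⊕ (Fin m ⊕ A) → ℝ) (a : A) :
    pmap (Phi g q δ h) v (Sum.inr (Sum.inr a)) =
      v (Sum.inr (Sum.inr a)) * eval (v ∘ Sum.inl) (q a) := by
  simp only [pmap, Phi, Sum.elim_inr, map_mul, eval_X, eval_rename]

/-- The region of integration. -/
def Reg (g : Fin m → MvPolynomial κ ℝ) (q : A → MvPolynomial κ ℝ) (δ ε : ℝ) :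
    Set (κ ⊕ (Fin m ⊕ A) → ℝ) :=
  {v | ∀ a, eval (v ∘ Sum.inl) (q a) < 0} ∩
    ({v | ∀ i : Fin m, |v (Sum.inr (Sum.inl i))| ≤ (m : ℝ) + 2} ∩
    ({v | ∀ b, |pmap (Phi g q δ (psi g)) v (Sum.inl b)| ≤ ε} ∩
    {v | ∀ a, 1 ≤ pmap (Phi g q δ (psi g)) v (Sum.inr (Sum.inr a)) ∧
      pmap (Phi g q δ (psi g)) v (Sum.inr (Sum.inr a)) ≤ 2}))

/-- The part near a cell. -/
def Near (g : Fin m → MvPolynomial κ ℝ) (α : Fin m → ℤ) : Set (κ ⊕ (Fin m ⊕ A) → ℝ) :=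
  {v | ∀ i, |eval (v ∘ Sum.inl) (g i) - α i| ≤ m + 3}

theorem measurable_ev (p : MvPolynomial κ ℝ) :
    Measurable fun v : κ ⊕ (Fin m ⊕ A) → ℝ => eval (v ∘ Sum.inl) p := by
  refine (MvPolynomial.continuous_eval p).measurable.comp ?_
  exact measurable_pi_lambda _ fun i => measurable_pi_apply _

theorem measurableSet_Reg (g : Fin m → MvPolynomial κ ℝ) (q : A → MvPolynomial κ ℝ) (δ ε : ℝ) :
    MeasurableSet (Reg g q δ ε) := by
  have h1 : ∀ i, Measurable fun v : κ ⊕ (Fin m ⊕ A) → ℝ => pmap (Phi g q δ (psi g)) v i :=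
    fun i => (measurable_pi_apply i).comp (continuous_pmap _).measurable
  refine MeasurableSet.inter ?_ (MeasurableSet.inter ?_ (MeasurableSet.inter ?_ ?_))
  · have : {v : κ ⊕ (Fin m ⊕ A) → ℝ | ∀ a, eval (v ∘ Sum.inl) (q a) < 0} =
        ⋂ a, {v | eval (v ∘ Sum.inl) (q a) < 0} := by ext v; simp
    rw [this]
    exact MeasurableSet.iInter fun a => measurableSet_lt (measurable_ev _) measurable_const
  · have : {v : κ ⊕ (Fin m ⊕ A) → ℝ | ∀ i : Fin m, |v (Sum.inr (Sum.inl i))| ≤ (m : ℝ) + 2} =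
        ⋂ i : Fin m, {v | |v (Sum.inr (Sum.inl i))| ≤ (m : ℝ) + 2} := by ext v; simp
    rw [this]
    exact MeasurableSet.iInter fun i =>
      measurableSet_le (measurable_pi_apply _).abs measurable_const
  · have : {v : κ ⊕ (Fin m ⊕ A) → ℝ | ∀ b, |pmap (Phi g q δ (psi g)) v (Sum.inl b)| ≤ ε} =
        ⋂ b, {v | |pmap (Phi g q δ (psi g)) v (Sum.inl b)| ≤ ε} := by ext v; simp
    rw [this]
    exact MeasurableSet.iInter fun b => measurableSet_le (h1 _).abs measurable_const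
  · have : {v : κ ⊕ (Fin m ⊕ A) → ℝ | ∀ a, 1 ≤ pmap (Phi g q δ (psi g)) v (Sum.inr (Sum.inr a)) ∧
        pmap (Phi g q δ (psi g)) v (Sum.inr (Sum.inr a)) ≤ 2} =
        ⋂ a, {v | 1 ≤ pmap (Phi g q δ (psi g)) v (Sum.inr (Sum.inr a)) ∧
          pmap (Phi g q δ (psi g)) v (Sum.inr (Sum.inr a)) ≤ 2} := by ext v; simp
    rw [this]
    exact MeasurableSet.iInter fun a => (measurableSet_le measurable_const (h1 _)).inter
      (measurableSet_le (h1 _) measurable_const)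

theorem measurableSet_Near (g : Fin m → MvPolynomial κ ℝ) (α : Fin m → ℤ) :
    MeasurableSet (Near (A := A) g α) := by
  have : (Near (A := A) g α) = ⋂ i, {v | |eval (v ∘ Sum.inl) (g i) - α i| ≤ (m : ℝ) + 3} := by
    ext v; simp [Near]
  rw [this]
  exact MeasurableSet.iInter fun i =>
    measurableSet_le ((measurable_ev _).sub_const _).abs measurable_const

/-- The number of cells near a point. -/
theorem card_near (g : Fin m → MvPolynomial κ ℝ) (𝒜 : Finset (Fin m → ℤ))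
    (v : κ ⊕ (Fin m ⊕ A) → ℝ) :
    ∑ α ∈ 𝒜, (Near g α).indicator (fun _ => (1 : ENNReal)) v ≤ ((2 * m + 7) ^ m : ℕ) := by
  classical
  have h1 : ∑ α ∈ 𝒜, (Near g α).indicator (fun _ => (1 : ENNReal)) v =
      ((𝒜.filter fun α => v ∈ Near g α).card : ENNReal) := by
    rw [Finset.card_filter, Nat.cast_sum]
    refine Finset.sum_congr rfl fun α _ => ?_
    by_cases h : v ∈ Near g α
    · rw [Set.indicator_of_mem h, if_pos h, Nat.cast_one]
    · rw [Set.indicator_of_notMem h, if_neg h, Nat.cast_zero]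
  rw [h1]
  have h2 : (𝒜.filter fun α => v ∈ Near g α) ⊆ Fintype.piFinset fun i =>
      Finset.Icc (⌈eval (v ∘ Sum.inl) (g i) - (m + 3)⌉) (⌊eval (v ∘ Sum.inl) (g i) + (m + 3)⌋) := by
    intro α hα
    rw [Finset.mem_filter] at hα
    rw [Fintype.mem_piFinset]
    intro i
    have h3 := abs_le.1 (hα.2 i)
    rw [Finset.mem_Icc, Int.ceil_le, Int.le_floor]
    constructor <;> linarith [h3.1, h3.2]
  have h4 := Finset.card_le_card h2
  rw [Fintype.card_piFinset] at h4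
  have h5 : ∀ i ∈ (Finset.univ : Finset (Fin m)), (Finset.Icc
      (⌈eval (v ∘ Sum.inl) (g i) - (m + 3)⌉)
      (⌊eval (v ∘ Sum.inl) (g i) + (m + 3)⌋)).card ≤ 2 * m + 7 := by
    intro i _
    rw [Int.card_Icc]
    have h6 := Int.le_ceil (eval (v ∘ Sum.inl) (g i) - ((m : ℝ) + 3))
    have h7 := Int.floor_le (eval (v ∘ Sum.inl) (g i) + ((m : ℝ) + 3))
    have h8 : ((⌊eval (v ∘ Sum.inl) (g i) + ((m : ℝ) + 3)⌋ : ℤ) : ℝ) -
        ((⌈eval (v ∘ Sum.inl) (g i) - ((m : ℝ) + 3)⌉ : ℤ) : ℝ) ≤ ((2 * m + 6 : ℤ) : ℝ) := by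
      push_cast
      linarith
    have h9 : ⌊eval (v ∘ Sum.inl) (g i) + ((m : ℝ) + 3)⌋ -
        ⌈eval (v ∘ Sum.inl) (g i) - ((m : ℝ) + 3)⌉ ≤ 2 * m + 6 := by exact_mod_cast h8
    omega
  have h10 := h4.trans (Finset.prod_le_pow_card _ _ _ h5)
  rw [Finset.card_univ, Fintype.card_fin] at h10
  exact_mod_cast h10

/-- The box of values. -/
def Bx (α : Fin m → ℤ) (ε : ℝ) : Set (κ ⊕ (Fin m ⊕ A) → ℝ) :=
  Set.Icc (Sum.elim (fun _ => -ε) (Sum.elim (fun i => (α i : ℝ)) fun _ => 1))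
    (Sum.elim (fun _ => ε) (Sum.elim (fun i => (α i : ℝ) + 1) fun _ => 2))

theorem vol_Bx (α : Fin m → ℤ) (ε : ℝ) :
    volume (Bx α ε : Set (κ ⊕ (Fin m ⊕ A) → ℝ)) = ENNReal.ofReal (2 * ε) ^ Fintype.card κ := by
  rw [Bx, Real.volume_Icc_pi, Fintype.prod_sum_type, Fintype.prod_sum_type]
  simp only [Sum.elim_inl, Sum.elim_inr]
  have h1 : ∀ i : Fin m, ENNReal.ofReal ((α i : ℝ) + 1 - α i) = 1 := by
    intro i
    rw [show (α i : ℝ) + 1 - α i = 1 by ring, ENNReal.ofReal_one]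
  have h2 : ENNReal.ofReal ((2 : ℝ) - 1) = 1 := by
    rw [show (2 : ℝ) - 1 = 1 by ring, ENNReal.ofReal_one]
  simp only [h1, h2, Finset.prod_const_one, mul_one, Finset.prod_const, Finset.card_univ]
  rw [show ε - -ε = 2 * ε by ring]

/-- The box is in the image. -/
theorem Bx_sub (g : Fin m → MvPolynomial κ ℝ) (q : A → MvPolynomial κ ℝ) {α : Fin m → ℤ}
    {u₀ : κ → ℝ} (hq0 : ∀ a, eval u₀ (q a) < 0)
    (hα : ∀ i, (α i : ℝ) ≤ eval u₀ (g i) ∧ eval u₀ (g i) ≤ α i + 1) {δ ε R : ℝ} (hδ : 0 < δ)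
    (hδ1 : δ * ∑ a, 4 * (-eval u₀ (q a))⁻¹ ≤ 1 / 4)
    (hR : ∀ u : κ → ℝ, (∀ a, eval u (q a) < 0) → ∀ b, |u b| ≤ R) (hR0 : 0 ≤ R)
    (hε : Fintype.card κ * (ε * R) ≤ 1 / 4) :
    (Bx α ε : Set (κ ⊕ (Fin m ⊕ A) → ℝ)) ⊆
      pmap (Phi g q δ (psi g)) '' (Reg g q δ ε ∩ Near g α) := by
  intro v' hv'
  rw [Bx, Set.mem_Icc, Pi.le_def, Pi.le_def] at hv'
  have hb : ∀ b, |v' (Sum.inl b)| ≤ ε := fun b =>
    abs_le.2 ⟨hv'.1 (Sum.inl b), hv'.2 (Sum.inl b)⟩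
  have hm1 : ∀ i : Fin m, (α i : ℝ) ≤ v' (Sum.inr (Sum.inl i)) := fun i =>
    hv'.1 (Sum.inr (Sum.inl i))
  have hm2 : ∀ i : Fin m, v' (Sum.inr (Sum.inl i)) ≤ α i + 1 := fun i =>
    hv'.2 (Sum.inr (Sum.inl i))
  have hw : ∀ a : A, 1 ≤ v' (Sum.inr (Sum.inr a)) ∧ v' (Sum.inr (Sum.inr a)) ≤ 2 := fun a =>
    ⟨hv'.1 (Sum.inr (Sum.inr a)), hv'.2 (Sum.inr (Sum.inr a))⟩
  obtain ⟨u, hu1, hu2, hu3⟩ := exists_pre g q hq0 (y := fun i => v' (Sum.inr (Sum.inl i)))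
    (fun i => by
      rw [abs_le]
      constructor <;> linarith [(hα i).1, (hα i).2, hm1 i, hm2 i])
    (w := fun a => v' (Sum.inr (Sum.inr a))) hw (c := fun b => v' (Sum.inl b)) hδ hδ1 hR (by
      calc ∑ b, |v' (Sum.inl b)| * R ≤ ∑ _b : κ, ε * R :=
            Finset.sum_le_sum fun b _ => mul_le_mul_of_nonneg_right (hb b) hR0
        _ = Fintype.card κ * (ε * R) := by
            rw [Finset.sum_const, Finset.card_univ, nsmul_eq_mul]
        _ ≤ 1 / 4 := hε)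
  obtain ⟨v, hv⟩ : ∃ v : κ ⊕ (Fin m ⊕ A) → ℝ, v = Sum.elim u (Sum.elim
      (fun i => eval u (g i) - v' (Sum.inr (Sum.inl i)))
      fun a => v' (Sum.inr (Sum.inr a)) / eval u (q a)) := ⟨_, rfl⟩
  have hvu : v ∘ Sum.inl = u := by
    rw [hv]
    rfl
  have hv1 : ∀ i : Fin m, v (Sum.inr (Sum.inl i)) = eval u (g i) - v' (Sum.inr (Sum.inl i)) := by
    intro i
    rw [hv]
    rfl
  have hv2 : ∀ a : A, v (Sum.inr (Sum.inr a)) = v' (Sum.inr (Sum.inr a)) / eval u (q a) := by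
    intro a
    rw [hv]
    rfl
  have h1 : pmap (Phi g q δ (psi g)) v = v' := by
    funext j
    rcases j with b | i | a
    · rw [pmap_inl, hvu]
      simp only [hv1, hv2]
      exact (hu3 b).symm
    · rw [pmap_mid]
      simp only [psi, map_add, map_neg, eval_X, eval_rename]
      rw [hvu, hv1]
      ring
    · rw [pmap_inr, hvu, hv2]
      exact div_mul_cancel₀ _ (hu1 a).ne
  refine ⟨v, ⟨⟨?_, ?_, ?_, ?_⟩, ?_⟩, h1⟩
  · intro a
    rw [hvu]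
    exact hu1 a
  · intro i
    rw [hv1]
    exact hu2 i
  · intro b
    rw [h1]
    exact hb b
  · intro a
    rw [h1]
    exact hw a
  · intro i
    rw [hvu]
    have h2 := abs_le.1 (hu2 i)
    rw [abs_le]
    constructor <;> linarith [hm1 i, hm2 i, h2.1, h2.2]

/-- The volume of the image under a comparison map. -/
theorem vol_image (g : Fin m → MvPolynomial κ ℝ) (q : A → MvPolynomial κ ℝ) (δ ε : ℝ)
    (h : Fin m → MvPolynomial (κ ⊕ (Fin m ⊕ A)) ℝ) (S : Set (Fin m → ℝ)) (hS : MeasurableSet S)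
    (hmem : ∀ v : κ ⊕ (Fin m ⊕ A) → ℝ, (∀ a, eval (v ∘ Sum.inl) (q a) < 0) →
      (∀ i : Fin m, |v (Sum.inr (Sum.inl i))| ≤ m + 2) → (fun i => eval v (h i)) ∈ S) :
    volume (pmap (Phi g q δ h) '' Reg g q δ ε) ≤
      ENNReal.ofReal (2 * ε) ^ Fintype.card κ * volume S := by
  obtain ⟨E, hE⟩ : ∃ E : Set (κ → ℝ), E = Set.Icc (fun _ => -ε) fun _ => ε := ⟨_, rfl⟩
  obtain ⟨W, hW⟩ : ∃ W : Set (A → ℝ), W = Set.Icc (fun _ => 1) fun _ => 2 := ⟨_, rfl⟩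
  obtain ⟨B, hB⟩ : ∃ B : Set (Fin m ⊕ A → ℝ), B =
      (fun y : Fin m ⊕ A → ℝ => fun i => y (Sum.inl i)) ⁻¹' S ∩
      (fun y : Fin m ⊕ A → ℝ => fun a => y (Sum.inr a)) ⁻¹' W := ⟨_, rfl⟩
  have hWm : MeasurableSet W := by rw [hW]; exact measurableSet_Icc
  have hBm : MeasurableSet B := by
    rw [hB]
    refine MeasurableSet.inter ?_ ?_
    · exact (measurable_pi_lambda _ fun i => measurable_pi_apply _) hS
    · exact (measurable_pi_lambda _ fun i => measurable_pi_apply _) hWm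
  have hvE : volume E = ENNReal.ofReal (2 * ε) ^ Fintype.card κ := by
    rw [hE, Real.volume_Icc_pi, Finset.prod_const, Finset.card_univ,
      show ε - -ε = 2 * ε by ring]
  have hvW : volume W = 1 := by
    rw [hW, Real.volume_Icc_pi, Finset.prod_const, show (2 : ℝ) - 1 = 1 by ring,
      ENNReal.ofReal_one, one_pow]
  have hvB : volume B ≤ volume S := by
    have h1 := volume_sum_pi_le S W hWm B (fun y hy => by
      rw [hB] at hy
      exact hy)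
    rw [hvW, mul_one] at h1
    exact h1
  have h2 := volume_sum_pi_le E B hBm (pmap (Phi g q δ h) '' Reg g q δ ε) (by
    rintro _ ⟨v, hv, rfl⟩
    refine ⟨?_, ?_⟩
    · rw [hE, Set.mem_Icc, Pi.le_def, Pi.le_def]
      have h3 : ∀ b, |pmap (Phi g q δ h) v (Sum.inl b)| ≤ ε := hv.2.2.1
      exact ⟨fun b => (abs_le.1 (h3 b)).1, fun b => (abs_le.1 (h3 b)).2⟩
    · rw [hB]
      refine ⟨hmem v hv.1 hv.2.1, ?_⟩
      rw [hW]
      have h3 : ∀ a, 1 ≤ pmap (Phi g q δ h) v (Sum.inr (Sum.inr a)) ∧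
        pmap (Phi g q δ h) v (Sum.inr (Sum.inr a)) ≤ 2 := hv.2.2.2
      exact ⟨fun a => (h3 a).1, fun a => (h3 a).2⟩)
  rw [hvE] at h2
  exact h2.trans (mul_le_mul_right hvB _)

/-- **The counting theorem, abstract form.** -/
theorem count_le (g : Fin m → MvPolynomial κ ℝ) (q : A → MvPolynomial κ ℝ)
    (𝒜 : Finset (Fin m → ℤ))
    (h𝒜 : ∀ α ∈ 𝒜, ∃ u₀ : κ → ℝ, (∀ a, eval u₀ (q a) < 0) ∧
      ∀ i, (α i : ℝ) ≤ eval u₀ (g i) ∧ eval u₀ (g i) ≤ α i + 1) {R : ℝ}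
    (hR : ∀ u : κ → ℝ, (∀ a, eval u (q a) < 0) → ∀ b, |u b| ≤ R) (hR0 : 0 ≤ R)
    {β : Type} [Fintype β] (hh : β → Fin m → MvPolynomial (κ ⊕ (Fin m ⊕ A)) ℝ) (wt : β → ℝ)
    (hwt : ∀ b, 0 ≤ wt b) (S : β → Set (Fin m → ℝ)) (hS : ∀ b, MeasurableSet (S b))
    (hmem : ∀ b, ∀ v : κ ⊕ (Fin m ⊕ A) → ℝ, (∀ a, eval (v ∘ Sum.inl) (q a) < 0) →
      (∀ i : Fin m, |v (Sum.inr (Sum.inl i))| ≤ m + 2) → (fun i => eval v (hh b i)) ∈ S b)
    {d : ℕ} (hdeg : ∀ δ b i, (Phi g q δ (hh b) i).totalDegree ≤ d)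
    (hdet : ∀ δ, ∀ v : κ ⊕ (Fin m ⊕ A) → ℝ, (∀ a, eval (v ∘ Sum.inl) (q a) < 0) →
      |(jac (Phi g q δ (psi g)) v).det| ≤ ∑ b, wt b * |(jac (Phi g q δ (hh b)) v).det|) :
    (𝒜.card : ENNReal) ≤ ((2 * m + 7) ^ m : ℕ) * ∑ b, ENNReal.ofReal (wt b) *
      (((d + 1) ^ Fintype.card (κ ⊕ (Fin m ⊕ A)) : ℕ) * volume (S b)) := by
  classical
  choose! u hu1 hu2 using h𝒜
  -- the parameters
  obtain ⟨M, hM⟩ : ∃ M : ℝ, M = ∑ α ∈ 𝒜, ∑ a, 4 * (-eval (u α) (q a))⁻¹ := ⟨_, rfl⟩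
  have hM1 : ∀ α ∈ 𝒜, 0 ≤ ∑ a, 4 * (-eval (u α) (q a))⁻¹ := fun α hα =>
    Finset.sum_nonneg fun a _ =>
      mul_nonneg (by norm_num) (inv_nonneg.2 (neg_pos.2 (hu1 α hα a)).le)
  have hM0 : 0 ≤ M := by
    rw [hM]
    exact Finset.sum_nonneg hM1
  obtain ⟨δ, hδ⟩ : ∃ δ : ℝ, δ = 1 / (4 * (M + 1)) := ⟨_, rfl⟩
  have hδ0 : 0 < δ := by
    rw [hδ]
    positivity
  have hδ1 : ∀ α ∈ 𝒜, δ * ∑ a, 4 * (-eval (u α) (q a))⁻¹ ≤ 1 / 4 := by
    intro α hα
    have h1 : ∑ a, 4 * (-eval (u α) (q a))⁻¹ ≤ M := by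
      rw [hM]
      exact Finset.single_le_sum (f := fun α => ∑ a, 4 * (-eval (u α) (q a))⁻¹) hM1 hα
    calc δ * ∑ a, 4 * (-eval (u α) (q a))⁻¹ ≤ δ * (M + 1) :=
          mul_le_mul_of_nonneg_left (by linarith) hδ0.le
      _ = 1 / 4 := by
          rw [hδ]
          field_simp
  obtain ⟨ε, hε⟩ : ∃ ε : ℝ, ε = 1 / (4 * (Fintype.card κ * R + 1)) := ⟨_, rfl⟩
  have hcR : 0 ≤ (Fintype.card κ : ℝ) * R := mul_nonneg (Nat.cast_nonneg _) hR0
  have hε0 : 0 < ε := by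
    rw [hε]
    positivity
  have hε1 : (Fintype.card κ : ℝ) * (ε * R) ≤ 1 / 4 := by
    calc (Fintype.card κ : ℝ) * (ε * R) = ε * (Fintype.card κ * R) := by ring
      _ ≤ ε * (Fintype.card κ * R + 1) := mul_le_mul_of_nonneg_left (by linarith) hε0.le
      _ = 1 / 4 := by
          rw [hε]
          field_simp
  obtain ⟨V, hV⟩ : ∃ V : ENNReal, V = ENNReal.ofReal (2 * ε) ^ Fintype.card κ := ⟨_, rfl⟩
  have hV0 : V ≠ 0 := by
    rw [hV]
    refine pow_ne_zero _ ?_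
    rw [Ne, ENNReal.ofReal_eq_zero, not_le]
    positivity
  have hVt : V ≠ ⊤ := by
    rw [hV]
    exact ENNReal.pow_ne_top ENNReal.ofReal_ne_top
  obtain ⟨J, hJ⟩ : ∃ J : (κ ⊕ (Fin m ⊕ A) → ℝ) → ENNReal,
      J = fun v => ENNReal.ofReal |(jac (Phi g q δ (psi g)) v).det| := ⟨_, rfl⟩
  have hJm : Measurable J := by
    rw [hJ]
    exact ENNReal.measurable_ofReal.comp (continuous_jac_det _).abs.measurable
  have hRm := measurableSet_Reg g q δ ε
  have hNm : ∀ α, MeasurableSet (Near (A := A) g α) := fun α => measurableSet_Near g α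
  -- lower bound
  have h1 : ∀ α ∈ 𝒜, V ≤ ∫⁻ v in Reg g q δ ε ∩ Near g α, J v := by
    intro α hα
    have h2 := Bx_sub g q (hu1 α hα) (hu2 α hα) hδ0 (hδ1 α hα) hR hR0 hε1
    have h3 : volume (pmap (Phi g q δ (psi g)) '' (Reg g q δ ε ∩ Near g α)) ≤
        ∫⁻ v in Reg g q δ ε ∩ Near g α, ENNReal.ofReal |(djac (Phi g q δ (psi g)) v).det| :=
      addHaar_image_le_lintegral_abs_det_fderiv volume (hRm.inter (hNm α))
        (fun v _ => (hasStrictFDerivAt_pmap (Phi g q δ (psi g)) v).hasFDerivAt.hasFDerivWithinAt)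
    rw [lintegral_congr fun v => by rw [djac_det (Phi g q δ (psi g)) v]] at h3
    rw [hV, ← vol_Bx (A := A) α ε, hJ]
    exact (measure_mono h2).trans h3
  have h4 : (𝒜.card : ENNReal) * V ≤ ((2 * m + 7) ^ m : ℕ) * ∫⁻ v in Reg g q δ ε, J v := by
    calc (𝒜.card : ENNReal) * V = ∑ _α ∈ 𝒜, V := by
          rw [Finset.sum_const, nsmul_eq_mul]
      _ ≤ ∑ α ∈ 𝒜, ∫⁻ v in Reg g q δ ε ∩ Near g α, J v := Finset.sum_le_sum h1
      _ = ∑ α ∈ 𝒜, ∫⁻ v in Reg g q δ ε, (Near g α).indicator J v := by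
          refine Finset.sum_congr rfl fun α _ => ?_
          rw [lintegral_indicator (hNm α), Measure.restrict_restrict (hNm α), Set.inter_comm]
      _ = ∫⁻ v in Reg g q δ ε, ∑ α ∈ 𝒜, (Near g α).indicator J v := by
          rw [lintegral_finsetSum _ fun α _ => hJm.indicator (hNm α)]
      _ ≤ ∫⁻ v in Reg g q δ ε, ((2 * m + 7) ^ m : ℕ) * J v := by
          refine lintegral_mono fun v => ?_
          have h5 : ∑ α ∈ 𝒜, (Near g α).indicator J v =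
              (∑ α ∈ 𝒜, (Near g α).indicator (fun _ => (1 : ENNReal)) v) * J v := by
            rw [Finset.sum_mul]
            refine Finset.sum_congr rfl fun α _ => ?_
            by_cases h6 : v ∈ Near g α
            · rw [Set.indicator_of_mem h6, Set.indicator_of_mem h6, one_mul]
            · rw [Set.indicator_of_notMem h6, Set.indicator_of_notMem h6, zero_mul]
          simp only [h5]
          exact mul_le_mul_left (card_near g 𝒜 v) _
      _ = ((2 * m + 7) ^ m : ℕ) * ∫⁻ v in Reg g q δ ε, J v := lintegral_const_mul _ hJm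
  -- upper bound
  have h6 : ∫⁻ v in Reg g q δ ε, J v ≤ ∑ b, ENNReal.ofReal (wt b) *
      (((d + 1) ^ Fintype.card (κ ⊕ (Fin m ⊕ A)) : ℕ) * (V * volume (S b))) := by
    have hjm : ∀ b, Measurable fun v : κ ⊕ (Fin m ⊕ A) → ℝ =>
        ENNReal.ofReal |(jac (Phi g q δ (hh b)) v).det| := fun b =>
      ENNReal.measurable_ofReal.comp (continuous_jac_det _).abs.measurable
    calc ∫⁻ v in Reg g q δ ε, J v ≤ ∫⁻ v in Reg g q δ ε, ∑ b, ENNReal.ofReal (wt b) *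
          ENNReal.ofReal |(jac (Phi g q δ (hh b)) v).det| := by
          refine setLIntegral_mono' hRm fun v hv => ?_
          rw [hJ]
          refine (ENNReal.ofReal_le_ofReal (hdet δ v hv.1)).trans (le_of_eq ?_)
          rw [ENNReal.ofReal_sum_of_nonneg fun b _ => mul_nonneg (hwt b) (abs_nonneg _)]
          exact Finset.sum_congr rfl fun b _ => ENNReal.ofReal_mul (hwt b)
      _ = ∑ b, ENNReal.ofReal (wt b) *
          ∫⁻ v in Reg g q δ ε, ENNReal.ofReal |(jac (Phi g q δ (hh b)) v).det| := by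
          rw [lintegral_finsetSum _ fun b _ => (hjm b).const_mul _]
          exact Finset.sum_congr rfl fun b _ => lintegral_const_mul _ (hjm b)
      _ ≤ _ := by
          refine Finset.sum_le_sum fun b _ => mul_le_mul_right ?_ _
          refine (lintegral_det_le _ (hdeg δ b) _ hRm).trans (mul_le_mul_right ?_ _)
          rw [hV]
          exact vol_image g q δ ε (hh b) (S b) (hS b) (hmem b)
  have h7 : (𝒜.card : ENNReal) * V ≤ (((2 * m + 7) ^ m : ℕ) * ∑ b, ENNReal.ofReal (wt b) *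
      (((d + 1) ^ Fintype.card (κ ⊕ (Fin m ⊕ A)) : ℕ) * volume (S b))) * V := by
    refine (h4.trans (mul_le_mul_right h6 _)).trans (le_of_eq ?_)
    rw [mul_assoc, Finset.sum_mul]
    congr 1
    refine Finset.sum_congr rfl fun b _ => ?_
    ring
  exact (ENNReal.mul_le_mul_iff_left hV0 hVt).mp h7

end Pool.CNT
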