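import Mathlib

/-!
# Simultaneous diagonalisation of two Gram matrices
-/

set_option autoImplicit false

namespace Pool.CNT

open Matrix Finset

variable {m N : ℕ}

theorem sym_diag (A : Matrix (Fin m) (Fin m) ℝ) (hA : Aᵀ = A) :
    ∃ (U : Matrix (Fin m) (Fin m) ℝ) (d : Fin m → ℝ), Uᵀ * U = 1 ∧ Uᵀ * A * U = diagonal d := by
  have h1 : A.IsHermitian := by
    rw [Matrix.IsHermitian, Matrix.conjTranspose_eq_transpose_of_trivial, hA]
  have h2 := h1.conjStarAlgAut_star_eigenvectorUnitary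
  rw [Unitary.conjStarAlgAut_star_apply] at h2
  have h3 : star (h1.eigenvectorUnitary : Matrix (Fin m) (Fin m) ℝ) =
      (h1.eigenvectorUnitary : Matrix (Fin m) (Fin m) ℝ)ᵀ := by
    rw [Matrix.star_eq_conjTranspose, Matrix.conjTranspose_eq_transpose_of_trivial]
  refine ⟨(h1.eigenvectorUnitary : Matrix (Fin m) (Fin m) ℝ), h1.eigenvalues, ?_, ?_⟩
  · rw [← h3]
    exact Unitary.coe_star_mul_self _
  · rw [← h3, h2]
    rfl

/-- The Gram matrix is positive definite when its determinant is positive. -/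
theorem gram_pos (F : Matrix (Fin N) (Fin m) ℝ) (hF : (Fᵀ * F).det ≠ 0)
    {U : Matrix (Fin m) (Fin m) ℝ} {d : Fin m → ℝ} (hU : Uᵀ * U = 1)
    (h : Uᵀ * (Fᵀ * F) * U = diagonal d) (k : Fin m) : 0 < d k := by
  have h0 : ∀ k, 0 ≤ d k := by
    intro k
    have h1 : (Uᵀ * (Fᵀ * F) * U) k k = ∑ i, ((F * U) i k) ^ 2 := by
      rw [show Uᵀ * (Fᵀ * F) * U = (F * U)ᵀ * (F * U) by
        rw [Matrix.transpose_mul]; simp only [Matrix.mul_assoc]]
      rw [Matrix.mul_apply]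
      refine Finset.sum_congr rfl fun i _ => ?_
      rw [Matrix.transpose_apply, sq]
    rw [h, Matrix.diagonal_apply_eq] at h1
    rw [h1]
    exact Finset.sum_nonneg fun i _ => sq_nonneg _
  have h1 : ∏ k, d k ≠ 0 := by
    rw [← Matrix.det_diagonal, ← h, Matrix.det_mul, Matrix.det_mul]
    have h2 : Uᵀ.det * U.det = 1 := by
      rw [← Matrix.det_mul, hU, Matrix.det_one]
    have h3 : Uᵀ.det ≠ 0 := left_ne_zero_of_mul_eq_one h2
    have h4 : U.det ≠ 0 := right_ne_zero_of_mul_eq_one h2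
    exact mul_ne_zero (mul_ne_zero h3 hF) h4
  exact lt_of_le_of_ne (h0 k) (Ne.symm (Finset.prod_ne_zero_iff.1 h1 k (Finset.mem_univ k)))

theorem diag (G F : Matrix (Fin N) (Fin m) ℝ) (hF : (Fᵀ * F).det ≠ 0) :
    ∃ (C : Matrix (Fin m) (Fin m) ℝ) (s : Fin m → ℝ), (∀ k, 0 ≤ s k) ∧
      Cᵀ * (Fᵀ * F) * C = 1 ∧ Cᵀ * (Gᵀ * G) * C = diagonal (fun k => s k ^ 2) := by
  obtain ⟨U, d, hU, hd⟩ := sym_diag (Fᵀ * F) (by
    rw [Matrix.transpose_mul, Matrix.transpose_transpose])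
  have hpos := gram_pos F hF hU hd
  obtain ⟨W, hW⟩ : ∃ W : Matrix (Fin m) (Fin m) ℝ, W = U * diagonal (fun k => 1 / √(d k)) :=
    ⟨_, rfl⟩
  have h1 : Wᵀ * (Fᵀ * F) * W = 1 := by
    rw [hW, Matrix.transpose_mul, Matrix.diagonal_transpose]
    rw [show diagonal (fun k => 1 / √(d k)) * Uᵀ * (Fᵀ * F) * (U * diagonal (fun k => 1 / √(d k))) =
      diagonal (fun k => 1 / √(d k)) * (Uᵀ * (Fᵀ * F) * U) * diagonal (fun k => 1 / √(d k)) by
        simp only [Matrix.mul_assoc]]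
    rw [hd, Matrix.diagonal_mul_diagonal, Matrix.diagonal_mul_diagonal, ← Matrix.diagonal_one]
    congr 1
    funext k
    have h2 : 0 < √(d k) := Real.sqrt_pos.2 (hpos k)
    have h3 : √(d k) * √(d k) = d k := Real.mul_self_sqrt (hpos k).le
    field_simp
    linarith
  obtain ⟨V, e, hV, he⟩ := sym_diag (Wᵀ * (Gᵀ * G) * W) (by
    simp only [Matrix.transpose_mul, Matrix.transpose_transpose, Matrix.mul_assoc])
  have h2 : ∀ k, 0 ≤ e k := by
    intro k
    have h3 : (Vᵀ * (Wᵀ * (Gᵀ * G) * W) * V) k k = ∑ i, ((G * W * V) i k) ^ 2 := by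
      rw [show Vᵀ * (Wᵀ * (Gᵀ * G) * W) * V = (G * W * V)ᵀ * (G * W * V) by
        simp only [Matrix.transpose_mul, Matrix.mul_assoc]]
      rw [Matrix.mul_apply]
      refine Finset.sum_congr rfl fun i _ => ?_
      rw [Matrix.transpose_apply, sq]
    rw [he, Matrix.diagonal_apply_eq] at h3
    rw [h3]
    exact Finset.sum_nonneg fun i _ => sq_nonneg _
  refine ⟨W * V, fun k => √(e k), fun k => Real.sqrt_nonneg _, ?_, ?_⟩
  · rw [Matrix.transpose_mul]
    rw [show Vᵀ * Wᵀ * (Fᵀ * F) * (W * V) = Vᵀ * (Wᵀ * (Fᵀ * F) * W) * V by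
      simp only [Matrix.mul_assoc]]
    rw [h1, Matrix.mul_one, hV]
  · rw [Matrix.transpose_mul]
    rw [show Vᵀ * Wᵀ * (Gᵀ * G) * (W * V) = Vᵀ * (Wᵀ * (Gᵀ * G) * W) * V by
      simp only [Matrix.mul_assoc]]
    rw [he]
    congr 1
    funext k
    rw [Real.sq_sqrt (h2 k)]

/-- Coefficients: the rows of `G` in terms of the rows of `F`. -/
theorem coef (G F : Matrix (Fin N) (Fin m) ℝ) (hF : (Fᵀ * F).det ≠ 0)
    (a : Matrix (Fin N) (Fin N) ℝ) (ha : ∀ i j, |a i j| ≤ 1) (haF : F = a * G) :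
    ∃ (g : Matrix (Fin N) (Fin m) ℝ) (e : Matrix (Fin m) (Fin m) ℝ)
      (b : Matrix (Fin N) (Fin m) ℝ) (s : Fin m → ℝ),
      (∀ k, 1 ≤ s k) ∧ (∀ i k, |g i k| ≤ s k) ∧ (∀ l k, |b l k| ≤ 1) ∧
      G = g * e ∧ e = bᵀ * F ∧
      (∏ k, s k) ^ 2 * (Fᵀ * F).det = (N : ℝ) ^ (2 * m) * (Gᵀ * G).det := by
  obtain ⟨C, s, hs, h1, h2⟩ := diag G F hF
  have hC : C * (Cᵀ * (Fᵀ * F)) = 1 := mul_eq_one_comm.1 h1
  have h3 : ∀ k, ∑ i, ((F * C) i k) ^ 2 = 1 := by
    intro k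
    have h4 : (Cᵀ * (Fᵀ * F) * C) k k = ∑ i, ((F * C) i k) ^ 2 := by
      rw [show Cᵀ * (Fᵀ * F) * C = (F * C)ᵀ * (F * C) by
        simp only [Matrix.transpose_mul, Matrix.mul_assoc]]
      rw [Matrix.mul_apply]
      refine Finset.sum_congr rfl fun i _ => ?_
      rw [Matrix.transpose_apply, sq]
    rw [← h4, h1, Matrix.one_apply_eq]
  have h4 : ∀ k, ∑ i, ((G * C) i k) ^ 2 = s k ^ 2 := by
    intro k
    have h4 : (Cᵀ * (Gᵀ * G) * C) k k = ∑ i, ((G * C) i k) ^ 2 := by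
      rw [show Cᵀ * (Gᵀ * G) * C = (G * C)ᵀ * (G * C) by
        simp only [Matrix.transpose_mul, Matrix.mul_assoc]]
      rw [Matrix.mul_apply]
      refine Finset.sum_congr rfl fun i _ => ?_
      rw [Matrix.transpose_apply, sq]
    rw [← h4, h2, Matrix.diagonal_apply_eq]
  have h5 : ∀ i k, |(G * C) i k| ≤ s k := by
    intro i k
    rw [← abs_of_nonneg (hs k)]
    refine sq_le_sq.1 ?_
    rw [← h4 k]
    exact Finset.single_le_sum (f := fun i => ((G * C) i k) ^ 2) (fun i _ => sq_nonneg _)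
      (Finset.mem_univ i)
  have h6 : ∀ i k, |(F * C) i k| ≤ 1 := by
    intro i k
    rw [← abs_of_nonneg (zero_le_one' ℝ)]
    refine sq_le_sq.1 ?_
    rw [one_pow, ← h3 k]
    exact Finset.single_le_sum (f := fun i => ((F * C) i k) ^ 2) (fun i _ => sq_nonneg _)
      (Finset.mem_univ i)
  -- the lower bound
  have h7 : ∀ k, 1 ≤ N * s k := by
    intro k
    have h8 : ∀ i, |(F * C) i k| ≤ ∑ j, |(G * C) j k| := by
      intro i
      rw [haF, Matrix.mul_assoc, Matrix.mul_apply]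
      refine (Finset.abs_sum_le_sum_abs _ _).trans (Finset.sum_le_sum fun j _ => ?_)
      rw [abs_mul]
      exact (mul_le_mul_of_nonneg_right (ha i j) (abs_nonneg _)).trans (le_of_eq (one_mul _))
    have h9 : (∑ j, |(G * C) j k|) ^ 2 ≤ N * s k ^ 2 := by
      have := sq_sum_le_card_mul_sum_sq (s := (Finset.univ : Finset (Fin N)))
        (f := fun j => |(G * C) j k|)
      rw [Finset.card_univ, Fintype.card_fin] at this
      refine this.trans (le_of_eq ?_)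
      rw [← h4 k]
      congr 1
      exact Finset.sum_congr rfl fun j _ => sq_abs _
    have h10 : (1 : ℝ) ≤ N * (N * s k ^ 2) := by
      have h11 : ∀ i, ((F * C) i k) ^ 2 ≤ N * s k ^ 2 := by
        intro i
        refine le_trans ?_ h9
        rw [← sq_abs]
        exact pow_le_pow_left₀ (abs_nonneg _) (h8 i) 2
      calc (1 : ℝ) = ∑ i, ((F * C) i k) ^ 2 := (h3 k).symm
        _ ≤ ∑ _i : Fin N, N * s k ^ 2 := Finset.sum_le_sum fun i _ => h11 i
        _ = N * (N * s k ^ 2) := by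
            rw [Finset.sum_const, Finset.card_univ, Fintype.card_fin, nsmul_eq_mul]
    have h12 : (0 : ℝ) ≤ N * s k := mul_nonneg (Nat.cast_nonneg _) (hs k)
    nlinarith
  refine ⟨G * C, Cᵀ * (Fᵀ * F), F * C, fun k => N * s k, h7, ?_, h6, ?_, ?_, ?_⟩
  · intro i k
    refine (h5 i k).trans ?_
    have hN : (1 : ℝ) ≤ N := by
      have : 0 < N := Fin.pos i
      exact_mod_cast this
    nlinarith [hs k]
  · rw [Matrix.mul_assoc, hC, Matrix.mul_one]
  · rw [Matrix.transpose_mul, Matrix.mul_assoc]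
  · have h8 : (Cᵀ.det * C.det) * (Fᵀ * F).det = 1 := by
      have := congrArg Matrix.det h1
      rw [Matrix.det_mul, Matrix.det_mul, Matrix.det_one] at this
      linarith [mul_right_comm Cᵀ.det (Fᵀ * F).det C.det]
    have h9 : (Cᵀ.det * C.det) * (Gᵀ * G).det = ∏ k, s k ^ 2 := by
      have := congrArg Matrix.det h2
      rw [Matrix.det_mul, Matrix.det_mul, Matrix.det_diagonal] at this
      linarith [mul_right_comm Cᵀ.det (Gᵀ * G).det C.det]
    have h10 : (∏ k : Fin m, (N : ℝ) * s k) ^ 2 = (N : ℝ) ^ (2 * m) * ∏ k, s k ^ 2 := by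
      rw [Finset.prod_mul_distrib, Finset.prod_const, Finset.card_univ, Fintype.card_fin, mul_pow,
        ← pow_mul, mul_comm m 2, Finset.prod_pow]
    rw [h10, ← h9]
    calc (N : ℝ) ^ (2 * m) * (Cᵀ.det * C.det * (Gᵀ * G).det) * (Fᵀ * F).det =
        (N : ℝ) ^ (2 * m) * (Gᵀ * G).det * ((Cᵀ.det * C.det) * (Fᵀ * F).det) := by ring
      _ = (N : ℝ) ^ (2 * m) * (Gᵀ * G).det := by rw [h8, mul_one]

end Pool.CNT
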