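import Pool.Agent.H85.CNT.Cou
import Pool.Agent.H50.PW.Implicit

/-!
# The count for the lines of an algebraic cell: statement, constraints, comparison maps
-/

set_option autoImplicit false
set_option linter.unusedSectionVars false

namespace Pool.CNT

open Finset MvPolynomial MeasureTheory
open Pool.Agent.H50.PW

/-- **The counting statement.** -/
def CntP (m d : ℕ) : Prop :=
  ∃ C : ℝ, 1 ≤ C ∧ ∀ (k : ℕ) (G : Fin m → MvPolynomial (Fin m) ℝ)
    (F : Fin (m + 1) → Fin m → MvPolynomial (Fin m) ℝ) (s : Fin (m + 1) → ℝ) (h j₀ ρ : ℝ)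
    (Y : Finset ((Fin m → ℝ) × (Fin m → ℝ))),
    (∀ i, (G i).totalDegree ≤ d) → (∀ j i, (F j i).totalDegree ≤ d) →
    0 < h → 0 < j₀ → 0 < ρ → (∀ i, |s i| ≤ 2) → (∀ i j, i ≠ j → h ≤ |s i - s j|) →
    (∀ y ∈ Y, (∀ i, |eval y.1 (G i)| ≤ 1) ∧ (∀ j i, |eval (y.1 + s j • y.2) (F j i)| ≤ 1) ∧
      (∀ j, 1 / ρ ≤ |(jac (F j) (y.1 + s j • y.2)).det|) ∧ |(jac G y.1).det| ≤ j₀) →
    ((Y.image fun y i => ⌊2 ^ k * eval y.1 (G i)⌋).card : ℝ) ≤
      C * (2 ^ (k * m) * j₀ * ρ * (1 / h) ^ m + 2 ^ (k * (m - 1)))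

variable {m : ℕ}

/-- The index type of the constraints. -/
abbrev Ax (m : ℕ) : Type :=
  (Fin (m + 1) × Fin m) ⊕ (Fin (m + 1) ⊕ (Fin m ⊕ (Unit ⊕ (Fin m ⊕ Fin m))))

/-- Evaluation at the position of the line at time `s`. -/
noncomputable def FS (s : ℝ) (p : MvPolynomial (Fin m) ℝ) : MvPolynomial (Fin m ⊕ Fin m) ℝ :=
  bind₁ (fun i => X (Sum.inl i) + MvPolynomial.C s * X (Sum.inr i)) p

theorem eval_FS (s : ℝ) (p : MvPolynomial (Fin m) ℝ) (u : Fin m ⊕ Fin m → ℝ) :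
    eval u (FS s p) = eval ((u ∘ Sum.inl) + s • (u ∘ Sum.inr)) p := by
  rw [FS, eval_bind₁_eq]
  congr 1
  congr 1
  funext i
  simp

theorem deg_FS (s : ℝ) (p : MvPolynomial (Fin m) ℝ) : (FS s p).totalDegree ≤ p.totalDegree := by
  refine totalDegree_bind₁_le _ (fun i => ?_) p
  refine (totalDegree_add _ _).trans (max_le ?_ ?_)
  · rw [totalDegree_X]
  · refine (totalDegree_mul _ _).trans ?_
    rw [totalDegree_C, totalDegree_X]

/-- The constraints. -/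
noncomputable def qs (G : Fin m → MvPolynomial (Fin m) ℝ)
    (F : Fin (m + 1) → Fin m → MvPolynomial (Fin m) ℝ) (s : Fin (m + 1) → ℝ) (j₀ ρ R : ℝ) :
    Ax m → MvPolynomial (Fin m ⊕ Fin m) ℝ :=
  Sum.elim (fun ji => FS (s ji.1) (F ji.1 ji.2) ^ 2 - MvPolynomial.C 4)
    (Sum.elim (fun j => MvPolynomial.C (1 / (2 * ρ)) ^ 2 - FS (s j) (detP (F j)) ^ 2)
      (Sum.elim (fun i => rename Sum.inl (G i) ^ 2 - MvPolynomial.C 4)
        (Sum.elim (fun _ => rename Sum.inl (detP G) ^ 2 - MvPolynomial.C (2 * j₀) ^ 2)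
          fun c => X c ^ 2 - MvPolynomial.C R ^ 2)))

/-- What the constraints say. -/
theorem qs_neg {G : Fin m → MvPolynomial (Fin m) ℝ}
    {F : Fin (m + 1) → Fin m → MvPolynomial (Fin m) ℝ} {s : Fin (m + 1) → ℝ} {j₀ ρ R : ℝ}
    (hj : 0 < j₀) (hρ : 0 < ρ) (hR : 0 ≤ R) {u : Fin m ⊕ Fin m → ℝ}
    (h : ∀ a, eval u (qs G F s j₀ ρ R a) < 0) :
    (∀ j i, |eval ((u ∘ Sum.inl) + s j • (u ∘ Sum.inr)) (F j i)| ≤ 2) ∧
      (∀ j, 1 / (2 * ρ) ≤ |(jac (F j) ((u ∘ Sum.inl) + s j • (u ∘ Sum.inr))).det|) ∧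
      (∀ i, |eval (u ∘ Sum.inl) (G i)| ≤ 2) ∧ |(jac G (u ∘ Sum.inl)).det| ≤ 2 * j₀ ∧
      ∀ c, |u c| ≤ R := by
  refine ⟨fun j i => ?_, fun j => ?_, fun i => ?_, ?_, fun c => ?_⟩
  · have h1 := h (Sum.inl (j, i))
    simp only [qs, Sum.elim_inl, map_sub, map_pow, eval_C, eval_FS] at h1
    refine abs_le_of_sq_le_sq' (b := 2) ?_ (by norm_num) |> abs_le.2
    linarith
  · have h1 := h (Sum.inr (Sum.inl j))
    simp only [qs, Sum.elim_inl, Sum.elim_inr, map_sub, map_pow, eval_C, eval_FS,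
      eval_detP] at h1
    have h2 : (1 / (2 * ρ)) ^ 2 ≤ |(jac (F j) ((u ∘ Sum.inl) + s j • (u ∘ Sum.inr))).det| ^ 2 := by
      rw [sq_abs]
      linarith
    exact (pow_le_pow_iff_left₀ (by positivity) (abs_nonneg _) two_ne_zero).1 h2
  · have h1 := h (Sum.inr (Sum.inr (Sum.inl i)))
    simp only [qs, Sum.elim_inl, Sum.elim_inr, map_sub, map_pow, eval_C, eval_rename] at h1
    refine abs_le_of_sq_le_sq' (b := 2) ?_ (by norm_num) |> abs_le.2
    linarith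
  · have h1 := h (Sum.inr (Sum.inr (Sum.inr (Sum.inl ()))))
    simp only [qs, Sum.elim_inl, Sum.elim_inr, map_sub, map_pow, eval_C, eval_rename,
      eval_detP] at h1
    refine abs_le_of_sq_le_sq' (b := 2 * j₀) ?_ (by positivity) |> abs_le.2
    linarith
  · have h1 := h (Sum.inr (Sum.inr (Sum.inr (Sum.inr c))))
    simp only [qs, Sum.elim_inr, map_sub, map_pow, eval_C, eval_X] at h1
    refine abs_le_of_sq_le_sq' (b := R) ?_ hR |> abs_le.2
    linarith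

/-- The constraints hold at the given lines. -/
theorem qs_of {G : Fin m → MvPolynomial (Fin m) ℝ}
    {F : Fin (m + 1) → Fin m → MvPolynomial (Fin m) ℝ} {s : Fin (m + 1) → ℝ} {j₀ ρ R : ℝ}
    (hj : 0 < j₀) (hρ : 0 < ρ) {x v : Fin m → ℝ}
    (h1 : ∀ i, |eval x (G i)| ≤ 1) (h2 : ∀ j i, |eval (x + s j • v) (F j i)| ≤ 1)
    (h3 : ∀ j, 1 / ρ ≤ |(jac (F j) (x + s j • v)).det|) (h4 : |(jac G x).det| ≤ j₀)
    (h5 : ∀ i, |x i| < R) (h6 : ∀ i, |v i| < R) (a : Ax m) :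
    eval (Sum.elim x v) (qs G F s j₀ ρ R a) < 0 := by
  have hx : (Sum.elim x v : Fin m ⊕ Fin m → ℝ) ∘ Sum.inl = x := rfl
  have hv : (Sum.elim x v : Fin m ⊕ Fin m → ℝ) ∘ Sum.inr = v := rfl
  rcases a with ⟨j, i⟩ | j | i | ⟨⟩ | c | c
  · simp only [qs, Sum.elim_inl, map_sub, map_pow, eval_C, eval_FS, hx, hv]
    have := (sq_le_one_iff_abs_le_one _).2 (h2 j i)
    linarith
  · simp only [qs, Sum.elim_inl, Sum.elim_inr, map_sub, map_pow, eval_C, eval_FS,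
      eval_detP, hx, hv]
    have h7 : (1 / (2 * ρ)) < |(jac (F j) (x + s j • v)).det| := by
      refine lt_of_lt_of_le ?_ (h3 j)
      exact one_div_lt_one_div_of_lt hρ (by linarith)
    have h8 : (1 / (2 * ρ)) ^ 2 < |(jac (F j) (x + s j • v)).det| ^ 2 :=
      pow_lt_pow_left₀ h7 (by positivity) two_ne_zero
    rw [sq_abs] at h8
    linarith
  · simp only [qs, Sum.elim_inl, Sum.elim_inr, map_sub, map_pow, eval_C, eval_rename, hx]
    have := (sq_le_one_iff_abs_le_one _).2 (h1 i)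
    linarith
  · simp only [qs, Sum.elim_inl, Sum.elim_inr, map_sub, map_pow, eval_C, eval_rename,
      eval_detP, hx]
    have h8 : |(jac G x).det| ^ 2 ≤ j₀ ^ 2 := pow_le_pow_left₀ (abs_nonneg _) h4 2
    rw [sq_abs] at h8
    nlinarith
  · simp only [qs, Sum.elim_inl, Sum.elim_inr, map_sub, map_pow, eval_C, eval_X]
    have h8 : |x c| ^ 2 < R ^ 2 := pow_lt_pow_left₀ (h5 c) (abs_nonneg _) two_ne_zero
    rw [sq_abs] at h8
    linarith
  · simp only [qs, Sum.elim_inr, map_sub, map_pow, eval_C, eval_X]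
    have h8 : |v c| ^ 2 < R ^ 2 := pow_lt_pow_left₀ (h6 c) (abs_nonneg _) two_ne_zero
    rw [sq_abs] at h8
    linarith

/-- The degree of a constraint. -/
theorem deg_qs {G : Fin m → MvPolynomial (Fin m) ℝ}
    {F : Fin (m + 1) → Fin m → MvPolynomial (Fin m) ℝ} {s : Fin (m + 1) → ℝ} {j₀ ρ R : ℝ}
    {d : ℕ} (hG : ∀ i, (G i).totalDegree ≤ d) (hF : ∀ j i, (F j i).totalDegree ≤ d) (a : Ax m) :
    (qs G F s j₀ ρ R a).totalDegree ≤ 2 * (m * d + d + 1) := by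
  have hC : ∀ (c : ℝ) (D : ℕ), (MvPolynomial.C c : MvPolynomial (Fin m ⊕ Fin m) ℝ).totalDegree ≤ D :=
    fun c D => by rw [totalDegree_C]; exact Nat.zero_le _
  have hP : ∀ (p : MvPolynomial (Fin m ⊕ Fin m) ℝ), p.totalDegree ≤ m * d + d + 1 →
      (p ^ 2).totalDegree ≤ 2 * (m * d + d + 1) := fun p hp =>
    (totalDegree_pow _ _).trans (Nat.mul_le_mul_left 2 hp)
  have hdG : (detP G).totalDegree ≤ m * d := by
    have := totalDegree_detP_le G hG
    rwa [Fintype.card_fin] at this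
  have hdF : ∀ j, (detP (F j)).totalDegree ≤ m * d := by
    intro j
    have := totalDegree_detP_le (F j) (hF j)
    rwa [Fintype.card_fin] at this
  rcases a with ⟨j, i⟩ | j | i | ⟨⟩ | c
  · refine (totalDegree_sub _ _).trans (max_le (hP _ ?_) (hC _ _))
    exact (deg_FS _ _).trans ((hF j i).trans (by omega))
  · refine (totalDegree_sub _ _).trans (max_le (hP _ (hC _ _)) (hP _ ?_))
    exact (deg_FS _ _).trans ((hdF j).trans (by omega))
  · refine (totalDegree_sub _ _).trans (max_le (hP _ ?_) (hC _ _))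
    exact (totalDegree_rename_le _ _).trans ((hG i).trans (by omega))
  · refine (totalDegree_sub _ _).trans (max_le (hP _ ?_) (hP _ (hC _ _)))
    exact (totalDegree_rename_le _ _).trans (hdG.trans (by omega))
  · refine (totalDegree_sub _ _).trans (max_le (hP _ ?_) (hP _ (hC _ _)))
    rw [totalDegree_X]
    omega

end Pool.CNT
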