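import Mathlib
import Pool.Agent.H50.PW.Slice

/-!
# Determinants with distinguished middle rows
-/

set_option autoImplicit false
set_option linter.unusedSectionVars false

namespace Pool.CNT

open Matrix Finset MvPolynomial
open Pool.Agent.H50.PW (wz wz_nonneg)

variable {κ A : Type} [Fintype κ] [DecidableEq κ] [Fintype A] [DecidableEq A] {m : ℕ}

theorem abs_det_le {ι α : Type} [Fintype ι] [DecidableEq ι] [Fintype α] (M : Matrix ι ι ℝ)
    (c : ι → α → ℝ) (v : ι → α → ι → ℝ) (h : ∀ i, M i = ∑ o, c i o • v i o) :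
    |M.det| ≤ ∑ r : ι → α, (∏ i, |c i (r i)|) * |(Matrix.of fun i => v i (r i)).det| := by
  have h1 : M = fun i => ∑ o, c i o • v i o := funext h
  have h2 : M.det = ∑ r : ι → α, (∏ i, c i (r i)) * (Matrix.of fun i => v i (r i)).det := by
    have h3 : M.det = (Matrix.detRowAlternating (n := ι) (R := ℝ)) M := rfl
    rw [h3, h1, ← AlternatingMap.coe_multilinearMap, MultilinearMap.map_sum]
    refine Finset.sum_congr rfl fun r _ => ?_
    rw [MultilinearMap.map_smul_univ]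
    rfl
  rw [h2]
  refine (Finset.abs_sum_le_sum_abs _ _).trans (Finset.sum_le_sum fun r _ => ?_)
  rw [abs_mul, Finset.abs_prod]

/-- The matrix with given middle rows. -/
def mid {R : Type} (P : κ ⊕ (Fin m ⊕ A) → κ ⊕ (Fin m ⊕ A) → R)
    (w : Fin m → κ ⊕ (Fin m ⊕ A) → R) : Matrix (κ ⊕ (Fin m ⊕ A)) (κ ⊕ (Fin m ⊕ A)) R :=
  Matrix.of (Sum.elim (fun k => P (Sum.inl k))
    (Sum.elim w fun a => P (Sum.inr (Sum.inr a))))

theorem mid_inl {R : Type} (P : κ ⊕ (Fin m ⊕ A) → κ ⊕ (Fin m ⊕ A) → R)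
    (w : Fin m → κ ⊕ (Fin m ⊕ A) → R) (k : κ) : mid P w (Sum.inl k) = P (Sum.inl k) := rfl

theorem mid_mid {R : Type} (P : κ ⊕ (Fin m ⊕ A) → κ ⊕ (Fin m ⊕ A) → R)
    (w : Fin m → κ ⊕ (Fin m ⊕ A) → R) (i : Fin m) :
    mid P w (Sum.inr (Sum.inl i)) = w i := rfl

theorem mid_inr {R : Type} (P : κ ⊕ (Fin m ⊕ A) → κ ⊕ (Fin m ⊕ A) → R)
    (w : Fin m → κ ⊕ (Fin m ⊕ A) → R) (a : A) :
    mid P w (Sum.inr (Sum.inr a)) = P (Sum.inr (Sum.inr a)) := rfl

/-- Sum of two choices of the middle rows. -/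
theorem mid_add_le (P : κ ⊕ (Fin m ⊕ A) → κ ⊕ (Fin m ⊕ A) → ℝ)
    (w₁ w₂ : Fin m → κ ⊕ (Fin m ⊕ A) → ℝ) :
    |(mid P fun i => w₁ i + w₂ i).det| ≤
      2 ^ Fintype.card (κ ⊕ (Fin m ⊕ A)) *
        ∑ T : Fin m → Bool, |(mid P fun i => cond (T i) (w₁ i) (w₂ i)).det| := by
  classical
  obtain ⟨S, hS⟩ : ∃ S : ℝ, S = ∑ T : Fin m → Bool,
      |(mid P fun i => cond (T i) (w₁ i) (w₂ i)).det| := ⟨_, rfl⟩
  have hS0 : 0 ≤ S := by
    rw [hS]
    exact Finset.sum_nonneg fun _ _ => abs_nonneg _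
  obtain ⟨c, hc⟩ : ∃ c : κ ⊕ (Fin m ⊕ A) → Bool → ℝ, c = Sum.elim
      (fun _ o => cond o 1 0) (Sum.elim (fun _ _ => 1) fun _ o => cond o 1 0) := ⟨_, rfl⟩
  obtain ⟨v, hv⟩ : ∃ v : κ ⊕ (Fin m ⊕ A) → Bool → κ ⊕ (Fin m ⊕ A) → ℝ, v = Sum.elim
      (fun k _ => P (Sum.inl k)) (Sum.elim (fun i o => cond o (w₁ i) (w₂ i))
        fun a _ => P (Sum.inr (Sum.inr a))) := ⟨_, rfl⟩
  have h1 : ∀ i, (mid P fun i => w₁ i + w₂ i) i = ∑ o, c i o • v i o := by
    rintro (k | i | a)
    · rw [mid_inl, hc, hv, Fintype.sum_bool]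
      simp
    · rw [mid_mid, hc, hv, Fintype.sum_bool]
      simp
    · rw [mid_inr, hc, hv, Fintype.sum_bool]
      simp
  refine (abs_det_le _ c v h1).trans ?_
  have h2 : ∀ r : κ ⊕ (Fin m ⊕ A) → Bool,
      (∏ i, |c i (r i)|) * |(Matrix.of fun i => v i (r i)).det| ≤ S := by
    intro r
    have h3 : ∏ i, |c i (r i)| ≤ 1 := by
      refine Finset.prod_le_one (fun i _ => abs_nonneg _) fun i _ => ?_
      rcases i with k | i | a
      · rw [hc]
        simp only [Sum.elim_inl]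
        cases r (Sum.inl k) <;> simp
      · rw [hc]
        simp only [Sum.elim_inl, Sum.elim_inr, abs_one, le_refl]
      · rw [hc]
        simp only [Sum.elim_inr]
        cases r (Sum.inr (Sum.inr a)) <;> simp
    have h5 : (Matrix.of fun i => v i (r i)) =
        mid P fun i => cond (r (Sum.inr (Sum.inl i))) (w₁ i) (w₂ i) := by
      ext i j
      rcases i with k | i | a
      · rw [hv]; rfl
      · rw [hv]; rfl
      · rw [hv]; rfl
    rw [h5]
    have h6 : |(mid P fun i => cond (r (Sum.inr (Sum.inl i))) (w₁ i) (w₂ i)).det| ≤ S := by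
      rw [hS]
      exact Finset.single_le_sum
        (f := fun T : Fin m → Bool => |(mid P fun i => cond (T i) (w₁ i) (w₂ i)).det|)
        (fun _ _ => abs_nonneg _) (Finset.mem_univ fun i => r (Sum.inr (Sum.inl i)))
    exact (mul_le_mul_of_nonneg_right h3 (abs_nonneg _)).trans (by rwa [one_mul])
  refine (Finset.sum_le_sum fun r _ => h2 r).trans (le_of_eq ?_)
  rw [Finset.sum_const, Finset.card_univ, nsmul_eq_mul, Fintype.card_fun, Fintype.card_bool]
  push_cast
  rw [hS]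

/-- A linear change of the middle rows. -/
theorem mid_mul (P : κ ⊕ (Fin m ⊕ A) → κ ⊕ (Fin m ⊕ A) → ℝ) (D : Matrix (Fin m) (Fin m) ℝ)
    (e : Fin m → κ ⊕ (Fin m ⊕ A) → ℝ) :
    (mid P fun i => ∑ k, D i k • e k).det = D.det * (mid P e).det := by
  obtain ⟨Q, hQ⟩ : ∃ Q : Matrix (κ ⊕ (Fin m ⊕ A)) (κ ⊕ (Fin m ⊕ A)) ℝ,
      Q = Matrix.fromBlocks 1 0 0 (Matrix.fromBlocks D 0 0 1) := ⟨_, rfl⟩
  have h1 : Q.det = D.det := by
    rw [hQ, Matrix.det_fromBlocks_zero₂₁, Matrix.det_fromBlocks_zero₂₁]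
    simp
  have h2 : (mid P fun i => ∑ k, D i k • e k) = Q * mid P e := by
    ext i j
    rw [Matrix.mul_apply, Fintype.sum_sum_type, Fintype.sum_sum_type]
    rcases i with k | i | a
    · rw [hQ]
      simp only [Matrix.fromBlocks_apply₁₁, Matrix.fromBlocks_apply₁₂, Matrix.zero_apply, zero_mul,
        Finset.sum_const_zero, add_zero, Matrix.one_apply, ite_mul, one_mul, Finset.sum_ite_eq,
        Finset.mem_univ, if_true]
      rfl
    · rw [hQ]
      simp only [Matrix.fromBlocks_apply₂₁, Matrix.fromBlocks_apply₂₂, Matrix.fromBlocks_apply₁₁,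
        Matrix.fromBlocks_apply₁₂, Matrix.zero_apply, zero_mul,
        Finset.sum_const_zero, add_zero, zero_add]
      rw [mid_mid, Finset.sum_apply]
      rfl
    · rw [hQ]
      simp only [Matrix.fromBlocks_apply₂₁, Matrix.fromBlocks_apply₂₂,
        Matrix.zero_apply, zero_mul,
        Finset.sum_const_zero, zero_add, Matrix.one_apply, ite_mul, one_mul, Finset.sum_ite_eq,
        Finset.mem_univ, if_true]
      rfl
  rw [h2, Matrix.det_mul, h1]

/-- Interpolation at zero. -/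
theorem interp (q : Polynomial ℝ) (hq : q.natDegree ≤ m) (s : Fin (m + 1) → ℝ)
    (hs : Function.Injective s) : |q.eval 0| ≤ ∑ i, wz s i * |q.eval (s i)| := by
  have hdeg : q.degree < (Finset.univ : Finset (Fin (m + 1))).card := by
    refine (Polynomial.degree_le_of_natDegree_le hq).trans_lt ?_
    rw [Finset.card_univ, Fintype.card_fin]
    exact_mod_cast Nat.lt_succ_self _
  have h1 := Lagrange.eq_interpolate (s := Finset.univ) (v := s) hs.injOn hdeg
  have h2 : q.eval 0 = ∑ i, q.eval (s i) *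
      ∏ j ∈ Finset.univ.erase i, ((0 - s j) / (s i - s j)) := by
    conv_lhs => rw [h1]
    rw [Lagrange.interpolate_apply, Polynomial.eval_finsetSum]
    refine Finset.sum_congr rfl fun i _ => ?_
    rw [Polynomial.eval_mul, Polynomial.eval_C, Lagrange.basis, Polynomial.eval_prod]
    congr 1
    refine Finset.prod_congr rfl fun j _ => ?_
    rw [Lagrange.basisDivisor]
    simp only [Polynomial.eval_mul, Polynomial.eval_C, Polynomial.eval_sub, Polynomial.eval_X]
    rw [div_eq_inv_mul]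
  rw [h2]
  refine (Finset.abs_sum_le_sum_abs _ _).trans (Finset.sum_le_sum fun i _ => ?_)
  rw [abs_mul, mul_comm, wz]
  have h5 : |∏ j ∈ Finset.univ.erase i, ((0 - s j) / (s i - s j))| =
      |∏ j ∈ Finset.univ.erase i, (s j / (s i - s j))| := by
    rw [Finset.abs_prod, Finset.abs_prod]
    refine Finset.prod_congr rfl fun j _ => ?_
    rw [abs_div, abs_div, zero_sub, abs_neg]
  rw [h5]

/-- The determinant is a polynomial of degree at most `m` in the middle rows. -/
theorem mid_line (P : κ ⊕ (Fin m ⊕ A) → κ ⊕ (Fin m ⊕ A) → ℝ)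
    (e₁ e₂ : Fin m → κ ⊕ (Fin m ⊕ A) → ℝ) (s : Fin (m + 1) → ℝ) (hs : Function.Injective s) :
    |(mid P e₁).det| ≤ ∑ j, wz s j * |(mid P fun i => e₁ i + s j • e₂ i).det| := by
  classical
  obtain ⟨M, hM⟩ : ∃ M : Matrix (κ ⊕ (Fin m ⊕ A)) (κ ⊕ (Fin m ⊕ A)) (Polynomial ℝ),
      M = mid (fun i j => Polynomial.C (P i j))
        (fun i j => Polynomial.C (e₁ i j) + Polynomial.X * Polynomial.C (e₂ i j)) := ⟨_, rfl⟩
  have h1 : ∀ s : ℝ, M.det.eval s = (mid P fun i => e₁ i + s • e₂ i).det := by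
    intro s
    rw [← Polynomial.coe_evalRingHom, RingHom.map_det]
    congr 1
    ext i j
    rw [RingHom.mapMatrix_apply, Matrix.map_apply, hM, Polynomial.coe_evalRingHom]
    rcases i with k | i | a
    · exact Polynomial.eval_C
    · rw [mid_mid, mid_mid, Polynomial.eval_add, Polynomial.eval_mul, Polynomial.eval_C,
        Polynomial.eval_C, Polynomial.eval_X]
      rfl
    · exact Polynomial.eval_C
  obtain ⟨dg, hdg⟩ : ∃ dg : κ ⊕ (Fin m ⊕ A) → ℕ, dg = Sum.elim (fun _ => 0)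
      (Sum.elim (fun _ => 1) fun _ => 0) := ⟨_, rfl⟩
  have h2 : ∀ i j, (M i j).natDegree ≤ dg i := by
    intro i j
    rcases i with k | i | a
    · rw [hM, hdg]
      exact le_of_eq (Polynomial.natDegree_C _)
    · rw [hM, hdg, mid_mid]
      refine (Polynomial.natDegree_add_le _ _).trans (max_le ?_ ?_)
      · rw [Polynomial.natDegree_C]; exact Nat.zero_le _
      · refine (Polynomial.natDegree_mul_le).trans ?_
        rw [Polynomial.natDegree_C, Polynomial.natDegree_X]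
        rfl
    · rw [hM, hdg]
      exact le_of_eq (Polynomial.natDegree_C _)
  have h3 : M.det.natDegree ≤ m := by
    rw [Matrix.det_apply]
    refine Polynomial.natDegree_sum_le_of_forall_le _ _ fun σ _ => ?_
    refine (Polynomial.natDegree_smul_le _ _).trans ?_
    refine (Polynomial.natDegree_prod_le _ _).trans ?_
    calc ∑ i, (M (σ i) i).natDegree ≤ ∑ i, dg (σ i) := Finset.sum_le_sum fun i _ => h2 _ _
      _ = ∑ i, dg i := Equiv.sum_comp σ dg
      _ = m := by
          rw [hdg, Fintype.sum_sum_type, Fintype.sum_sum_type]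
          simp
  have h4 := interp M.det h3 s hs
  rw [h1 0] at h4
  have h5 : (mid P fun i => e₁ i + (0 : ℝ) • e₂ i) = mid P e₁ := by
    congr 1
    funext i
    rw [zero_smul, add_zero]
  rw [h5] at h4
  refine h4.trans (le_of_eq (Finset.sum_congr rfl fun j _ => ?_))
  rw [h1]

end Pool.CNT
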