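import Pool.Agent.H85.CNT.Mid

/-!
# A critical point with a barrier
-/

set_option autoImplicit false
set_option linter.unusedSectionVars false

namespace Pool.CNT

open Finset MvPolynomial Filter Topology
open Pool.Agent.H50.PW (dEval dEval_apply hasStrictFDerivAt_eval)

variable {κ A : Type} [Fintype κ] [DecidableEq κ] [Fintype A] [DecidableEq A] {m : ℕ}

/-- Derivative of a polynomial along a coordinate line. -/
theorem hasDerivAt_line (p : MvPolynomial κ ℝ) (u : κ → ℝ) (c : κ) :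
    HasDerivAt (fun t : ℝ => eval (u + t • Pi.single c (1 : ℝ)) p) (eval u (pderiv c p)) 0 := by
  have h1 := (hasStrictFDerivAt_eval p u).hasFDerivAt
  have h2 : HasDerivAt (fun t : ℝ => u + t • (Pi.single c (1 : ℝ) : κ → ℝ))
      (Pi.single c (1 : ℝ)) 0 := by
    have h3 := ((hasDerivAt_id (0 : ℝ)).smul_const (Pi.single c (1 : ℝ) : κ → ℝ)).const_add u
    rw [one_smul] at h3
    exact h3
  have h4 : u + (0 : ℝ) • (Pi.single c (1 : ℝ) : κ → ℝ) = u := by
    rw [zero_smul, add_zero]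
  rw [← h4] at h1
  have h5 := h1.comp_hasDerivAt (0 : ℝ) h2
  rw [h4, dEval_apply] at h5
  have h6 : ∑ j, eval u (pderiv j p) * (Pi.single c (1 : ℝ) : κ → ℝ) j = eval u (pderiv c p) := by
    rw [Finset.sum_eq_single c]
    · rw [Pi.single_eq_same, mul_one]
    · intro j _ hj
      rw [Pi.single_eq_of_ne hj, mul_zero]
    · intro h; exact absurd (Finset.mem_univ c) h
  rw [h6] at h5
  exact h5

/-- The function to be minimised. -/
noncomputable def Tht (g : Fin m → MvPolynomial κ ℝ) (q : A → MvPolynomial κ ℝ) (y : Fin m → ℝ)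
    (w : A → ℝ) (c : κ → ℝ) (δ : ℝ) (u : κ → ℝ) : ℝ :=
  (∑ i, (eval u (g i) - y i) ^ 2) / 2 + δ * ∑ a, w a ^ 2 * (-eval u (q a))⁻¹ + ∑ c', c c' * u c'

theorem hasDerivAt_Tht (g : Fin m → MvPolynomial κ ℝ) (q : A → MvPolynomial κ ℝ) (y : Fin m → ℝ)
    (w : A → ℝ) (c : κ → ℝ) (δ : ℝ) (u : κ → ℝ) (hq : ∀ a, eval u (q a) < 0) (b : κ) :
    HasDerivAt (fun t : ℝ => Tht g q y w c δ (u + t • Pi.single b (1 : ℝ)))
      (∑ i, (eval u (g i) - y i) * eval u (pderiv b (g i)) +
        δ * ∑ a, (w a / eval u (q a)) ^ 2 * eval u (pderiv b (q a)) + c b) 0 := by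
  have hu : u + (0 : ℝ) • (Pi.single b (1 : ℝ) : κ → ℝ) = u := by
    rw [zero_smul, add_zero]
  have h1 : HasDerivAt (fun t : ℝ => (∑ i, (eval (u + t • Pi.single b (1 : ℝ)) (g i) - y i) ^ 2) / 2)
      (∑ i, (eval u (g i) - y i) * eval u (pderiv b (g i))) 0 := by
    have h2 : HasDerivAt (fun t : ℝ => ∑ i, (eval (u + t • Pi.single b (1 : ℝ)) (g i) - y i) ^ 2)
        (∑ i, 2 * ((eval u (g i) - y i) * eval u (pderiv b (g i)))) 0 := by
      refine HasDerivAt.fun_sum fun i _ => ?_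
      have h3 := ((hasDerivAt_line (g i) u b).sub_const (y i)).pow 2
      refine h3.congr_deriv ?_
      rw [hu]
      ring
    refine (h2.div_const 2).congr_deriv ?_
    rw [← Finset.mul_sum]
    ring
  have h4 : HasDerivAt (fun t : ℝ => δ * ∑ a, w a ^ 2 * (-eval (u + t • Pi.single b (1 : ℝ)) (q a))⁻¹)
      (δ * ∑ a, (w a / eval u (q a)) ^ 2 * eval u (pderiv b (q a))) 0 := by
    refine HasDerivAt.const_mul δ ?_
    refine HasDerivAt.fun_sum fun a _ => ?_
    have h5 := (hasDerivAt_line (q a) u b).neg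
    have h6 : -eval (u + (0 : ℝ) • Pi.single b (1 : ℝ)) (q a) ≠ 0 := by
      rw [hu]
      exact neg_ne_zero.2 (hq a).ne
    have h7 := (h5.inv h6).const_mul (w a ^ 2)
    refine h7.congr_deriv ?_
    simp only [Pi.neg_apply]
    rw [hu]
    have h8 := (hq a).ne
    field_simp
  have h9 : HasDerivAt (fun t : ℝ => ∑ c', c c' * (u + t • (Pi.single b (1 : ℝ) : κ → ℝ)) c') (c b) 0 := by
    have h10 : (fun t : ℝ => ∑ c', c c' * (u + t • (Pi.single b (1 : ℝ) : κ → ℝ)) c') =
        fun t : ℝ => (∑ c', c c' * u c') + t * c b := by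
      funext t
      simp only [Pi.add_apply, Pi.smul_apply, smul_eq_mul, mul_add, Finset.sum_add_distrib]
      congr 1
      rw [Finset.sum_eq_single b]
      · rw [Pi.single_eq_same]; ring
      · intro j _ hj
        rw [Pi.single_eq_of_ne hj]; ring
      · intro h; exact absurd (Finset.mem_univ b) h
    rw [h10]
    have h11 := ((hasDerivAt_id (0 : ℝ)).mul_const (c b)).const_add (∑ c', c c' * u c')
    rw [one_mul] at h11
    exact h11
  exact (h1.add h4).add h9

/-- **The critical point.** -/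
theorem exists_pre (g : Fin m → MvPolynomial κ ℝ) (q : A → MvPolynomial κ ℝ) {u₀ : κ → ℝ}
    (hq0 : ∀ a, eval u₀ (q a) < 0) {y : Fin m → ℝ} (hy : ∀ i, |eval u₀ (g i) - y i| ≤ 1)
    {w : A → ℝ} (hw : ∀ a, 1 ≤ w a ∧ w a ≤ 2) {c : κ → ℝ} {δ : ℝ} (hδ : 0 < δ)
    (hδ1 : δ * ∑ a, 4 * (-eval u₀ (q a))⁻¹ ≤ 1 / 4) {R : ℝ}
    (hR : ∀ u : κ → ℝ, (∀ a, eval u (q a) < 0) → ∀ b, |u b| ≤ R)
    (hc : ∑ b, |c b| * R ≤ 1 / 4) :
    ∃ u : κ → ℝ, (∀ a, eval u (q a) < 0) ∧ (∀ i, |eval u (g i) - y i| ≤ m + 2) ∧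
      ∀ b, c b = -∑ i, (eval u (g i) - y i) * eval u (pderiv b (g i)) -
        δ * ∑ a, (w a / eval u (q a)) ^ 2 * eval u (pderiv b (q a)) := by
  have hlin : ∀ u : κ → ℝ, (∀ a, eval u (q a) < 0) → |∑ b, c b * u b| ≤ 1 / 4 := by
    intro u hu
    refine (Finset.abs_sum_le_sum_abs _ _).trans (le_trans (Finset.sum_le_sum fun b _ => ?_) hc)
    rw [abs_mul]
    exact mul_le_mul_of_nonneg_left (hR u hu b) (abs_nonneg _)
  -- the value at the given point
  have hv0 : Tht g q y w c δ u₀ ≤ m / 2 + 1 / 2 := by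
    have h1 : (∑ i, (eval u₀ (g i) - y i) ^ 2) ≤ m := by
      calc (∑ i, (eval u₀ (g i) - y i) ^ 2) ≤ ∑ _i : Fin m, (1 : ℝ) := by
            refine Finset.sum_le_sum fun i _ => ?_
            rw [← sq_abs]
            exact pow_le_one₀ (abs_nonneg _) (hy i)
        _ = m := by simp
    have h2 : δ * ∑ a, w a ^ 2 * (-eval u₀ (q a))⁻¹ ≤ 1 / 4 := by
      refine le_trans (mul_le_mul_of_nonneg_left (Finset.sum_le_sum fun a _ => ?_) hδ.le) hδ1
      refine mul_le_mul_of_nonneg_right ?_ (inv_nonneg.2 (neg_pos.2 (hq0 a)).le)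
      nlinarith [(hw a).1, (hw a).2]
    have h3 := (abs_le.1 (hlin u₀ hq0)).2
    unfold Tht
    linarith
  -- the compact set
  obtain ⟨η, hη0, hη1, hη2⟩ : ∃ η : ℝ, 0 < η ∧ η * (m + 2) ≤ δ ∧ ∀ a, η ≤ -eval u₀ (q a) := by
    obtain ⟨Q, hQ⟩ : ∃ Q : ℝ, Q = ∑ a, (-eval u₀ (q a))⁻¹ + (m + 2) / δ := ⟨_, rfl⟩
    have h1 : ∀ a, 0 < (-eval u₀ (q a))⁻¹ := fun a => inv_pos.2 (neg_pos.2 (hq0 a))
    have h2 : 0 ≤ ∑ a, (-eval u₀ (q a))⁻¹ := Finset.sum_nonneg fun a _ => (h1 a).le
    have h3 : (0 : ℝ) < (m + 2) / δ := by positivity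
    have h4 : 0 < Q := by rw [hQ]; linarith
    refine ⟨Q⁻¹, inv_pos.2 h4, ?_, fun a => ?_⟩
    · rw [inv_mul_le_iff₀ h4, ← div_le_iff₀ hδ, hQ]
      linarith
    · refine inv_le_of_inv_le₀ (neg_pos.2 (hq0 a)) ?_
      have h5 := Finset.single_le_sum (f := fun a => (-eval u₀ (q a))⁻¹)
        (fun a _ => (h1 a).le) (Finset.mem_univ a)
      rw [hQ]
      linarith [h5]
  obtain ⟨K, hK⟩ : ∃ K : Set (κ → ℝ), K = {u | ∀ a, eval u (q a) ≤ -η} := ⟨_, rfl⟩
  have hKneg : ∀ u ∈ K, ∀ a, eval u (q a) < 0 := by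
    intro u hu a
    rw [hK] at hu
    have := hu a
    linarith
  have hKc : IsCompact K := by
    refine Metric.isCompact_of_isClosed_isBounded ?_ ?_
    · rw [hK]
      have h1 : {u : κ → ℝ | ∀ a, eval u (q a) ≤ -η} = ⋂ a, {u | eval u (q a) ≤ -η} := by
        ext u; simp
      rw [h1]
      exact isClosed_iInter fun a => isClosed_le (MvPolynomial.continuous_eval _) continuous_const
    · refine (Metric.isBounded_closedBall (x := (0 : κ → ℝ)) (r := max R 0)).subset ?_
      intro u hu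
      rw [mem_closedBall_zero_iff, pi_norm_le_iff_of_nonneg (le_max_right _ _)]
      intro b
      rw [Real.norm_eq_abs]
      exact (hR u (hKneg u hu) b).trans (le_max_left _ _)
  have hu0K : u₀ ∈ K := by
    rw [hK]
    intro a
    linarith [hη2 a]
  have hcont : ContinuousOn (Tht g q y w c δ) K := by
    unfold Tht
    refine ContinuousOn.add (ContinuousOn.add ?_ ?_) ?_
    · refine Continuous.continuousOn ?_
      refine Continuous.div_const ?_ 2
      refine continuous_finsetSum _ fun i _ => ?_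
      exact ((MvPolynomial.continuous_eval (g i)).sub continuous_const).pow 2
    · refine continuousOn_const.mul ?_
      refine continuousOn_finsetSum _ fun a _ => ?_
      refine continuousOn_const.mul ?_
      refine ContinuousOn.inv₀ (MvPolynomial.continuous_eval (q a)).neg.continuousOn ?_
      intro u hu
      exact neg_ne_zero.2 (hKneg u hu a).ne
    · refine Continuous.continuousOn ?_
      exact continuous_finsetSum _ fun b _ => continuous_const.mul (continuous_apply b)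
  obtain ⟨u, huK, hmin⟩ := hKc.exists_isMinOn ⟨u₀, hu0K⟩ hcont
  have hval : Tht g q y w c δ u ≤ m / 2 + 1 / 2 := (hmin hu0K).trans hv0
  have hbar : ∀ a, 0 ≤ w a ^ 2 * (-eval u (q a))⁻¹ := fun a =>
    mul_nonneg (sq_nonneg _) (inv_nonneg.2 (neg_pos.2 (hKneg u huK a)).le)
  have hl := abs_le.1 (hlin u (hKneg u huK))
  -- interior
  have hint : ∀ a, eval u (q a) < -η := by
    intro a
    by_contra h1
    push Not at h1
    have h2 : δ / η ≤ δ * ∑ a, w a ^ 2 * (-eval u (q a))⁻¹ := by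
      rw [div_eq_mul_inv]
      refine mul_le_mul_of_nonneg_left ?_ hδ.le
      have h3 := Finset.single_le_sum (f := fun a => w a ^ 2 * (-eval u (q a))⁻¹)
        (fun a _ => hbar a) (Finset.mem_univ a)
      refine le_trans ?_ h3
      have h4 : η⁻¹ ≤ (-eval u (q a))⁻¹ := by
        refine inv_anti₀ (neg_pos.2 (hKneg u huK a)) ?_
        linarith
      have h5 : (1 : ℝ) ≤ w a ^ 2 := by nlinarith [(hw a).1]
      calc η⁻¹ = 1 * η⁻¹ := (one_mul _).symm
        _ ≤ w a ^ 2 * (-eval u (q a))⁻¹ :=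
            mul_le_mul h5 h4 (inv_nonneg.2 hη0.le) (by positivity)
    have h6 : (m : ℝ) + 2 ≤ δ / η := by
      rw [le_div_iff₀ hη0]
      linarith
    have h7 : (0 : ℝ) ≤ (∑ i, (eval u (g i) - y i) ^ 2) / 2 := by
      have := Finset.sum_nonneg fun i (_ : i ∈ Finset.univ) => sq_nonneg (eval u (g i) - y i)
      linarith
    have h8 : (0 : ℝ) ≤ m := Nat.cast_nonneg m
    unfold Tht at hval
    linarith [hl.1]
  have hnear : ∀ᶠ v in 𝓝 u, v ∈ K := by
    have h1 : IsOpen {v : κ → ℝ | ∀ a, eval v (q a) < -η} := by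
      have h2 : {v : κ → ℝ | ∀ a, eval v (q a) < -η} = ⋂ a, {v | eval v (q a) < -η} := by
        ext v; simp
      rw [h2]
      exact isOpen_iInter_of_finite fun a =>
        isOpen_lt (MvPolynomial.continuous_eval _) continuous_const
    filter_upwards [h1.mem_nhds hint] with v hv
    rw [hK]
    intro a
    exact (hv a).le
  refine ⟨u, hKneg u huK, fun i => ?_, fun b => ?_⟩
  · have h1 : (∑ i, (eval u (g i) - y i) ^ 2) ≤ m + 3 / 2 := by
      have h2 : 0 ≤ δ * ∑ a, w a ^ 2 * (-eval u (q a))⁻¹ :=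
        mul_nonneg hδ.le (Finset.sum_nonneg fun a _ => hbar a)
      unfold Tht at hval
      linarith [hl.1]
    have h3 := Finset.single_le_sum (f := fun i => (eval u (g i) - y i) ^ 2)
      (fun i _ => sq_nonneg _) (Finset.mem_univ i)
    have h4 : |eval u (g i) - y i| ^ 2 ≤ ((m : ℝ) + 2) ^ 2 := by
      rw [sq_abs]
      have h5 : (0 : ℝ) ≤ m := Nat.cast_nonneg m
      nlinarith [h3]
    exact (pow_le_pow_iff_left₀ (abs_nonneg _) (by positivity) two_ne_zero).1 h4
  · have h1 := hasDerivAt_Tht g q y w c δ u (hKneg u huK) b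
    have h2 : IsLocalMin (fun t : ℝ => Tht g q y w c δ (u + t • Pi.single b (1 : ℝ))) 0 := by
      have h3 : Filter.Tendsto (fun t : ℝ => u + t • (Pi.single b (1 : ℝ) : κ → ℝ)) (𝓝 0) (𝓝 u) := by
        have h4 : Continuous fun t : ℝ => u + t • (Pi.single b (1 : ℝ) : κ → ℝ) := by fun_prop
        have h5 := h4.tendsto 0
        rw [zero_smul, add_zero] at h5
        exact h5
      have h6 := h3.eventually hnear
      filter_upwards [h6] with t ht
      have h7 := hmin ht
      rw [zero_smul, add_zero]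
      exact h7
    have h3 := h2.hasDerivAt_eq_zero h1
    linarith

end Pool.CNT
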