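import Pool.Agent.H85.CNT.Lin

/-!
# The count for the lines of an algebraic cell: proof
-/

set_option autoImplicit false
set_option linter.unusedSectionVars false

namespace Pool.CNT

open Finset MvPolynomial MeasureTheory
open Pool.Agent.H50.PW

section gen

variable {κ A : Type} [Fintype κ] [DecidableEq κ] [Fintype A] [DecidableEq A] {m : ℕ}

/-- The gradient of a polynomial at a point. -/
noncomputable def grd {ι : Type} (v : ι → ℝ) (p : MvPolynomial ι ℝ) (j : ι) : ℝ :=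
  eval v (pderiv j p)

theorem grd_add {ι : Type} (v : ι → ℝ) (p p' : MvPolynomial ι ℝ) :
    grd v (p + p') = grd v p + grd v p' := by
  funext j
  simp [grd]

theorem grd_C_mul {ι : Type} (v : ι → ℝ) (c : ℝ) (p : MvPolynomial ι ℝ) :
    grd v (MvPolynomial.C c * p) = c • grd v p := by
  funext j
  simp [grd]

theorem jac_Phi (g : Fin m → MvPolynomial κ ℝ) (q : A → MvPolynomial κ ℝ) (δ : ℝ)
    (h : Fin m → MvPolynomial (κ ⊕ (Fin m ⊕ A)) ℝ) (v : κ ⊕ (Fin m ⊕ A) → ℝ) :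
    jac (Phi g q δ h) v =
      mid (fun i => grd v (Phi g q δ (fun _ => 0) i)) (fun i => grd v (h i)) := by
  ext i j
  rcases i with b | i | a
  · rfl
  · rfl
  · rfl

theorem deg_Phi {g : Fin m → MvPolynomial κ ℝ} {q : A → MvPolynomial κ ℝ} {δ : ℝ}
    {h : Fin m → MvPolynomial (κ ⊕ (Fin m ⊕ A)) ℝ} {D : ℕ} (hg : ∀ i, (g i).totalDegree ≤ D)
    (hq : ∀ a, (q a).totalDegree ≤ D) (hh : ∀ i, (h i).totalDegree ≤ D + 2)
    (i : κ ⊕ (Fin m ⊕ A)) : (Phi g q δ h i).totalDegree ≤ D + 2 := by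
  rcases i with b | i | a
  · refine (totalDegree_sub _ _).trans (max_le ?_ ?_)
    · rw [totalDegree_neg]
      refine (totalDegree_finsetSum _ _).trans (Finset.sup_le fun i _ => ?_)
      refine (totalDegree_mul _ _).trans ?_
      rw [totalDegree_X]
      have h1 : (rename Sum.inl (pderiv b (g i)) :
          MvPolynomial (κ ⊕ (Fin m ⊕ A)) ℝ).totalDegree ≤ D :=
        (totalDegree_rename_le _ _).trans ((totalDegree_pderiv_le _ _).trans (hg i))
      omega
    · refine (totalDegree_mul _ _).trans ?_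
      rw [totalDegree_C, zero_add]
      refine (totalDegree_finsetSum _ _).trans (Finset.sup_le fun a _ => ?_)
      refine (totalDegree_mul _ _).trans ?_
      have h1 : (rename Sum.inl (pderiv b (q a)) :
          MvPolynomial (κ ⊕ (Fin m ⊕ A)) ℝ).totalDegree ≤ D :=
        (totalDegree_rename_le _ _).trans ((totalDegree_pderiv_le _ _).trans (hq a))
      have h2 : ((X (Sum.inr (Sum.inr a)) : MvPolynomial (κ ⊕ (Fin m ⊕ A)) ℝ) ^ 2).totalDegree
          ≤ 2 := by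
        refine (totalDegree_pow _ _).trans ?_
        rw [totalDegree_X]
      omega
  · exact hh i
  · refine (totalDegree_mul _ _).trans ?_
    rw [totalDegree_X]
    have h1 : (rename Sum.inl (q a) : MvPolynomial (κ ⊕ (Fin m ⊕ A)) ℝ).totalDegree ≤ D :=
      (totalDegree_rename_le _ _).trans (hq a)
    omega

end gen

section lin

variable {A : Type} [Fintype A] [DecidableEq A] {m : ℕ}

/-- The functions of the cubes. -/
noncomputable def gs (k : ℕ) (G : Fin m → MvPolynomial (Fin m) ℝ) (i : Fin m) :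
    MvPolynomial (Fin m ⊕ Fin m) ℝ :=
  MvPolynomial.C (2 ^ k) * rename Sum.inl (G i)

/-- The comparison maps. -/
noncomputable def hT (k : ℕ) (G : Fin m → MvPolynomial (Fin m) ℝ) (T : Fin m → Bool) (i : Fin m) :
    MvPolynomial ((Fin m ⊕ Fin m) ⊕ (Fin m ⊕ A)) ℝ :=
  cond (T i) (rename Sum.inl (gs k G i)) (-X (Sum.inr (Sum.inl i)))

/-- The comparison maps: positions. -/
noncomputable def hS (s : ℝ) (i : Fin m) : MvPolynomial ((Fin m ⊕ Fin m) ⊕ (Fin m ⊕ A)) ℝ :=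
  X (Sum.inl (Sum.inl i)) + MvPolynomial.C s * X (Sum.inl (Sum.inr i))

theorem grd_gs (k : ℕ) (G : Fin m → MvPolynomial (Fin m) ℝ) (i : Fin m)
    (v : (Fin m ⊕ Fin m) ⊕ (Fin m ⊕ A) → ℝ) :
    grd v (rename Sum.inl (gs k G i)) =
      ∑ l, ((2 : ℝ) ^ k • jac G ((v ∘ Sum.inl) ∘ Sum.inl)) i l •
        grd v (X (Sum.inl (Sum.inl l)) : MvPolynomial ((Fin m ⊕ Fin m) ⊕ (Fin m ⊕ A)) ℝ) := by
  have h0 : (rename Sum.inl (gs k G i) : MvPolynomial ((Fin m ⊕ Fin m) ⊕ (Fin m ⊕ A)) ℝ) =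
      MvPolynomial.C (2 ^ k) * rename (Sum.inl ∘ Sum.inl) (G i) := by
    rw [gs, map_mul, rename_C, rename_rename]
  have hinj : Function.Injective (Sum.inl ∘ Sum.inl :
      Fin m → (Fin m ⊕ Fin m) ⊕ (Fin m ⊕ A)) := Sum.inl_injective.comp Sum.inl_injective
  rw [h0, grd_C_mul]
  funext j
  rw [Finset.sum_apply]
  simp only [Pi.smul_apply, smul_eq_mul, Matrix.smul_apply]
  have h1 : ∀ l, grd v (X (Sum.inl (Sum.inl l)) :
      MvPolynomial ((Fin m ⊕ Fin m) ⊕ (Fin m ⊕ A)) ℝ) j =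
      if j = Sum.inl (Sum.inl l) then 1 else 0 := by
    intro l
    rw [grd, pderiv_X, Pi.single_apply]
    by_cases h : Sum.inl (Sum.inl l) = j
    · rw [if_pos h, if_pos h.symm, map_one]
    · rw [if_neg h, if_neg (fun h' => h h'.symm), map_zero]
  simp only [h1]
  by_cases hj : ∃ l, j = Sum.inl (Sum.inl l)
  · obtain ⟨l, rfl⟩ := hj
    rw [Finset.sum_eq_single l]
    · rw [if_pos rfl, mul_one]
      congr 1
      have h2 := pderiv_rename hinj l (G i)
      have h3 : (pderiv (Sum.inl (Sum.inl l))) (rename (Sum.inl ∘ Sum.inl) (G i)) =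
          (rename (Sum.inl ∘ Sum.inl) (pderiv l (G i)) :
            MvPolynomial ((Fin m ⊕ Fin m) ⊕ (Fin m ⊕ A)) ℝ) := h2
      rw [grd, h3, eval_rename]
      rfl
    · intro l' _ hl'
      rw [if_neg (fun h => hl' (Sum.inl_injective (Sum.inl_injective h)).symm), mul_zero]
    · intro h; exact absurd (Finset.mem_univ l) h
  · have h2 : (pderiv j) (rename (Sum.inl ∘ Sum.inl) (G i) :
        MvPolynomial ((Fin m ⊕ Fin m) ⊕ (Fin m ⊕ A)) ℝ) = 0 := by
      refine pderiv_eq_zero_of_notMem_vars ?_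
      intro h
      have h3 := vars_rename (Sum.inl ∘ Sum.inl :
        Fin m → (Fin m ⊕ Fin m) ⊕ (Fin m ⊕ A)) (G i) h
      obtain ⟨l, _, hl⟩ := Finset.mem_image.mp h3
      exact hj ⟨l, hl.symm⟩
    rw [grd, h2, map_zero, mul_zero]
    symm
    refine Finset.sum_eq_zero fun l _ => ?_
    rw [if_neg (fun h => hj ⟨l, h⟩), mul_zero]

/-- **The pointwise inequality.** -/
theorem det_psi (k : ℕ) (G : Fin m → MvPolynomial (Fin m) ℝ)
    (q : A → MvPolynomial (Fin m ⊕ Fin m) ℝ) (s : Fin (m + 1) → ℝ) (hs : Function.Injective s)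
    {j₁ : ℝ} (δ : ℝ) (v : (Fin m ⊕ Fin m) ⊕ (Fin m ⊕ A) → ℝ)
    (hj : |(jac G ((v ∘ Sum.inl) ∘ Sum.inl)).det| ≤ j₁) :
    |(jac (Phi (gs k G) q δ (psi (gs k G))) v).det| ≤
      ∑ b : (Fin m → Bool) ⊕ Fin (m + 1),
        Sum.elim (fun T : Fin m → Bool => if T = (fun _ => true) then 0 else
            (2 : ℝ) ^ Fintype.card ((Fin m ⊕ Fin m) ⊕ (Fin m ⊕ A)))
          (fun j => (2 : ℝ) ^ Fintype.card ((Fin m ⊕ Fin m) ⊕ (Fin m ⊕ A)) *
            (2 ^ (k * m) * j₁ * wz s j)) b *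
          |(jac (Phi (gs k G) q δ (Sum.elim (fun T => hT k G T) (fun j => hS (s j)) b)) v).det| := by
  classical
  obtain ⟨P, hP⟩ : ∃ P : (Fin m ⊕ Fin m) ⊕ (Fin m ⊕ A) → (Fin m ⊕ Fin m) ⊕ (Fin m ⊕ A) → ℝ,
      P = fun i => grd v (Phi (gs k G) q δ (fun _ => 0) i) := ⟨_, rfl⟩
  have hjac : ∀ h, jac (Phi (gs k G) q δ h) v = mid P fun i => grd v (h i) := by
    intro h
    rw [jac_Phi, hP]
  obtain ⟨c, hc⟩ : ∃ c : ℝ, c = (2 : ℝ) ^ Fintype.card ((Fin m ⊕ Fin m) ⊕ (Fin m ⊕ A)) :=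
    ⟨_, rfl⟩
  have hc0 : 0 ≤ c := by rw [hc]; positivity
  rw [← hc]
  have h1 := mid_add_le P (fun i => grd v (rename Sum.inl (gs k G i)))
    (fun i => grd v (-X (Sum.inr (Sum.inl i))))
  rw [← hc] at h1
  have h2 : (mid P fun i => grd v (rename Sum.inl (gs k G i)) + grd v (-X (Sum.inr (Sum.inl i)))) =
      jac (Phi (gs k G) q δ (psi (gs k G))) v := by
    rw [hjac]
    congr 1
    funext i
    rw [psi, grd_add]
  rw [h2] at h1
  have h3 : ∀ T : Fin m → Bool,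
      (mid P fun i => cond (T i) (grd v (rename Sum.inl (gs k G i)))
        (grd v (-X (Sum.inr (Sum.inl i))))) = jac (Phi (gs k G) q δ (hT k G T)) v := by
    intro T
    rw [hjac]
    congr 1
    funext i
    rw [hT]
    cases T i <;> rfl
  simp only [h3] at h1
  -- the full choice
  have h4 : |(jac (Phi (gs k G) q δ (hT k G fun _ => true)) v).det| ≤
      ∑ j, (2 ^ (k * m) * j₁ * wz s j) * |(jac (Phi (gs k G) q δ (hS (s j))) v).det| := by
    have h5 : jac (Phi (gs k G) q δ (hT k G fun _ => true)) v =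
        mid P fun i => ∑ l, ((2 : ℝ) ^ k • jac G ((v ∘ Sum.inl) ∘ Sum.inl)) i l •
          grd v (X (Sum.inl (Sum.inl l)) : MvPolynomial ((Fin m ⊕ Fin m) ⊕ (Fin m ⊕ A)) ℝ) := by
      rw [hjac]
      congr 1
      funext i
      exact grd_gs k G i v
    rw [h5, mid_mul, Matrix.det_smul, Fintype.card_fin, abs_mul, abs_mul,
      abs_of_nonneg (by positivity : (0 : ℝ) ≤ ((2 : ℝ) ^ k) ^ m), ← pow_mul]
    have h6 := mid_line P (fun l => grd v (X (Sum.inl (Sum.inl l)) :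
        MvPolynomial ((Fin m ⊕ Fin m) ⊕ (Fin m ⊕ A)) ℝ))
      (fun l => grd v (X (Sum.inl (Sum.inr l)) :
        MvPolynomial ((Fin m ⊕ Fin m) ⊕ (Fin m ⊕ A)) ℝ)) s hs
    have h7 : ∀ j, (mid P fun i => grd v (X (Sum.inl (Sum.inl i)) :
        MvPolynomial ((Fin m ⊕ Fin m) ⊕ (Fin m ⊕ A)) ℝ) + s j • grd v (X (Sum.inl (Sum.inr i)) :
        MvPolynomial ((Fin m ⊕ Fin m) ⊕ (Fin m ⊕ A)) ℝ)) =
        jac (Phi (gs k G) q δ (hS (s j))) v := by
      intro j
      rw [hjac]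
      congr 1
      funext i
      rw [hS, grd_add, grd_C_mul]
    simp only [h7] at h6
    have h8 : (2 : ℝ) ^ (k * m) * |(jac G ((v ∘ Sum.inl) ∘ Sum.inl)).det| ≤
        2 ^ (k * m) * j₁ := mul_le_mul_of_nonneg_left hj (by positivity)
    have h9 : 0 ≤ (2 : ℝ) ^ (k * m) * j₁ := (by positivity : (0 : ℝ) ≤ 2 ^ (k * m) *
      |(jac G ((v ∘ Sum.inl) ∘ Sum.inl)).det|).trans h8
    refine (mul_le_mul h8 h6 (abs_nonneg _) h9).trans (le_of_eq ?_)
    rw [Finset.mul_sum]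
    exact Finset.sum_congr rfl fun j _ => by ring
  refine h1.trans ?_
  rw [Fintype.sum_sum_type]
  simp only [Sum.elim_inl, Sum.elim_inr]
  rw [← Finset.add_sum_erase _ _ (Finset.mem_univ (fun _ : Fin m => true)), mul_add, add_comm]
  refine add_le_add ?_ ?_
  · rw [Finset.mul_sum]
    rw [← Finset.add_sum_erase (f := fun T : Fin m → Bool =>
      (if T = (fun _ => true) then 0 else c) *
        |(jac (Phi (gs k G) q δ (hT k G T)) v).det|) _ (Finset.mem_univ (fun _ : Fin m => true))]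
    rw [if_pos rfl, zero_mul, zero_add]
    refine Finset.sum_le_sum fun T hT' => ?_
    rw [if_neg (Finset.ne_of_mem_erase hT')]
  · calc c * |(jac (Phi (gs k G) q δ (hT k G fun _ => true)) v).det| ≤
        c * ∑ j, (2 ^ (k * m) * j₁ * wz s j) *
          |(jac (Phi (gs k G) q δ (hS (s j))) v).det| := mul_le_mul_of_nonneg_left h4 hc0
      _ = _ := by
          rw [Finset.mul_sum]
          exact Finset.sum_congr rfl fun j _ => by ring

end lin

end Pool.CNT
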